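import Mathlib

/-! A rank argument: approximate matrix units of size `m` in `M_d(ℂ)` force `m ∣ d`. -/

set_option autoImplicit false

open Matrix
open scoped Matrix.Norms.L2Operator

namespace Pool.Agent.Helper46_UHF

lemma isUnit_of_norm_sub_one {X : Type*} [Fintype X] [DecidableEq X] (M : Matrix X X ℂ)
    (h : ‖M - 1‖ < 1) : IsUnit M := by
  have : IsUnit (1 - (1 - M)) := by
    apply isUnit_one_sub_of_norm_lt_one
    rwa [norm_sub_rev] at h
  simpa using this

lemma rank_eq_card_of_approx {X Y : Type*} [Fintype X] [DecidableEq X] [Fintype Y] [DecidableEq Y]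
    (W : Matrix Y X ℂ) (P : Matrix Y Y ℂ) (hP : P * P = P) (hPs : Pᴴ = P)
    (h1 : ‖Wᴴ * W - 1‖ < 1 / 4) (h2 : ‖W * Wᴴ - P‖ < 1 / 4) : P.rank = Fintype.card X := by
  have hPn : ‖P‖ ≤ 1 := by
    have h := Matrix.l2_opNorm_conjTranspose_mul_self P
    rw [hPs, hP] at h
    nlinarith [norm_nonneg P]
  have hWn : ‖W‖ * ‖W‖ ≤ 5 / 4 := by
    rw [← Matrix.l2_opNorm_conjTranspose_mul_self W]
    have h3 : ‖(1 : Matrix X X ℂ)‖ ≤ 1 := by
      have h := Matrix.l2_opNorm_conjTranspose_mul_self (1 : Matrix X X ℂ)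
      rw [conjTranspose_one, mul_one] at h
      nlinarith [norm_nonneg (1 : Matrix X X ℂ)]
    calc ‖Wᴴ * W‖ = ‖(Wᴴ * W - 1) + 1‖ := by simp
      _ ≤ ‖Wᴴ * W - 1‖ + ‖(1 : Matrix X X ℂ)‖ := norm_add_le _ _
      _ ≤ 5 / 4 := by linarith
  apply le_antisymm
  · -- rank P ≤ card X
    have hV : IsUnit (P * (W * Wᴴ) * P + (1 - P)) := by
      apply isUnit_of_norm_sub_one
      have e : P * (W * Wᴴ) * P + (1 - P) - 1 = P * (W * Wᴴ - P) * P := by
        rw [mul_sub, sub_mul, hP, hP]; abel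
      rw [e]
      calc ‖P * (W * Wᴴ - P) * P‖ ≤ ‖P‖ * ‖W * Wᴴ - P‖ * ‖P‖ := by
            refine (Matrix.l2_opNorm_mul _ _).trans ?_
            gcongr
            exact Matrix.l2_opNorm_mul _ _
        _ ≤ 1 * ‖W * Wᴴ - P‖ * 1 := by gcongr
        _ < 1 := by linarith
    have e2 : (P * (W * Wᴴ) * P + (1 - P)) * P = P * W * Wᴴ * P := by
      rw [add_mul, sub_mul, one_mul, hP, sub_self, add_zero, Matrix.mul_assoc (P * (W * Wᴴ)), hP]
      simp only [Matrix.mul_assoc]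
    have h3 : P.rank = (P * W * Wᴴ * P).rank := by
      rw [← e2]
      exact (Matrix.rank_mul_eq_right_of_isUnit_det _ _ ((Matrix.isUnit_iff_isUnit_det _).1 hV)).symm
    rw [h3, Matrix.mul_assoc (P * W)]
    calc (P * W * (Wᴴ * P)).rank ≤ (P * W).rank := Matrix.rank_mul_le_left _ _
      _ ≤ Fintype.card X := Matrix.rank_le_card_width _
  · have hZ : IsUnit (Wᴴ * P * W) := by
      apply isUnit_of_norm_sub_one
      have e : Wᴴ * P * W - 1 = -(Wᴴ * (W * Wᴴ - P) * W) +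
          ((Wᴴ * W - 1) * (Wᴴ * W - 1) + 2 • (Wᴴ * W - 1)) := by
        have h4 : (Wᴴ * W - 1) * (Wᴴ * W - 1) + 2 • (Wᴴ * W - 1) = Wᴴ * W * (Wᴴ * W) - 1 := by
          rw [mul_sub, sub_mul, sub_mul, two_smul]; simp
        rw [h4, Matrix.mul_sub, Matrix.sub_mul]
        simp only [Matrix.mul_assoc]
        abel
      rw [e]
      have b1 : ‖Wᴴ * (W * Wᴴ - P) * W‖ ≤ 5 / 16 := by
        calc ‖Wᴴ * (W * Wᴴ - P) * W‖ ≤ ‖Wᴴ‖ * ‖W * Wᴴ - P‖ * ‖W‖ := by
              refine (Matrix.l2_opNorm_mul _ _).trans ?_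
              gcongr
              exact Matrix.l2_opNorm_mul _ _
          _ = (‖W‖ * ‖W‖) * ‖W * Wᴴ - P‖ := by rw [Matrix.l2_opNorm_conjTranspose]; ring
          _ ≤ (5 / 4) * (1 / 4) := by gcongr
          _ = 5 / 16 := by norm_num
      have b2 : ‖(Wᴴ * W - 1) * (Wᴴ * W - 1)‖ ≤ 1 / 16 := by
        calc ‖(Wᴴ * W - 1) * (Wᴴ * W - 1)‖ ≤ ‖Wᴴ * W - 1‖ * ‖Wᴴ * W - 1‖ := norm_mul_le _ _
          _ ≤ (1 / 4) * (1 / 4) := by gcongr
          _ = 1 / 16 := by norm_num
      have b3 : ‖2 • (Wᴴ * W - 1)‖ ≤ 1 / 2 := by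
        rw [two_smul]
        refine (norm_add_le _ _).trans ?_
        linarith
      calc _ ≤ ‖-(Wᴴ * (W * Wᴴ - P) * W)‖ +
            ‖(Wᴴ * W - 1) * (Wᴴ * W - 1) + 2 • (Wᴴ * W - 1)‖ := norm_add_le _ _
        _ ≤ ‖Wᴴ * (W * Wᴴ - P) * W‖ +
            (‖(Wᴴ * W - 1) * (Wᴴ * W - 1)‖ + ‖2 • (Wᴴ * W - 1)‖) := by
              rw [norm_neg]; gcongr; exact norm_add_le _ _
        _ < 1 := by linarith
    rw [← Matrix.rank_of_isUnit _ hZ]
    calc (Wᴴ * P * W).rank ≤ (Wᴴ * P).rank := Matrix.rank_mul_le_left _ _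
      _ ≤ P.rank := Matrix.rank_mul_le_right _ _

lemma rank_eq_trace_of_idem {Y : Type*} [Fintype Y] [DecidableEq Y] (P : Matrix Y Y ℂ)
    (hP : P * P = P) : (P.rank : ℂ) = P.trace := by
  have h : LinearMap.IsProj (LinearMap.range (Matrix.toLin' P)) (Matrix.toLin' P) := by
    refine ⟨fun x => ⟨x, rfl⟩, ?_⟩
    rintro _ ⟨x, rfl⟩
    rw [← LinearMap.comp_apply, ← Matrix.toLin'_mul, hP]
  have h2 := h.trace
  rw [Matrix.trace_toLin'_eq] at h2
  rw [h2]
  rfl

/-- the isometry onto the `i`-th block -/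
noncomputable def blk {m : ℕ} (X : Type*) [DecidableEq X] (i : Fin m) :
    Matrix (Fin m × X) X ℂ :=
  Matrix.of fun p b => if p.1 = i ∧ p.2 = b then 1 else 0

lemma blk_conj_mul {m : ℕ} {X : Type*} [Fintype X] [DecidableEq X] (i j : Fin m) :
    (blk X i)ᴴ * blk X j = if i = j then 1 else 0 := by
  ext a b
  rw [Matrix.mul_apply, Fintype.sum_prod_type]
  simp only [conjTranspose_apply, blk, Matrix.of_apply]
  by_cases hij : i = j
  · subst hij
    rw [if_pos rfl, Finset.sum_eq_single i, Finset.sum_eq_single a]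
    · simp [Matrix.one_apply]
    · intro c _ hc; simp [hc]
    · simp
    · intro k _ hk; simp [hk]
    · simp
  · rw [if_neg hij]
    simp only [Matrix.zero_apply]
    apply Finset.sum_eq_zero; intro k _
    apply Finset.sum_eq_zero; intro c _
    by_cases hk : k = i
    · subst hk; simp [hij]
    · simp [hk]

lemma norm_blk_le {m : ℕ} {X : Type*} [Fintype X] [DecidableEq X] (i : Fin m) :
    ‖blk X i‖ ≤ 1 := by
  have h := Matrix.l2_opNorm_conjTranspose_mul_self (blk X i)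
  rw [blk_conj_mul, if_pos rfl] at h
  have h3 : ‖(1 : Matrix X X ℂ)‖ ≤ 1 := by
    have h := Matrix.l2_opNorm_conjTranspose_mul_self (1 : Matrix X X ℂ)
    rw [conjTranspose_one, mul_one] at h
    nlinarith [norm_nonneg (1 : Matrix X X ℂ)]
  nlinarith [norm_nonneg (blk X i)]

lemma dvd_card_of_approx {m : ℕ} {X : Type*} [Fintype X] [DecidableEq X]
    (A : Fin m → Matrix X X ℂ) (P : Matrix X X ℂ) (hP : P * P = P) (hPs : Pᴴ = P)
    (h1 : ‖∑ i, (A i)ᴴ * A i - 1‖ < 1 / 4)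
    (h2 : ∑ i, ∑ j, ‖A i * (A j)ᴴ - (if i = j then P else 0)‖ < 1 / 4) :
    m ∣ Fintype.card X := by
  set W : Matrix (Fin m × X) X ℂ := ∑ i, blk X i * A i with hW
  set Q : Matrix (Fin m × X) (Fin m × X) ℂ := ∑ i, blk X i * P * (blk X i)ᴴ with hQ
  have hQQ : Q * Q = Q := by
    rw [hQ, Finset.sum_mul]
    apply Finset.sum_congr rfl; intro i _
    rw [Finset.mul_sum, Finset.sum_eq_single i]
    · have : blk X i * P * (blk X i)ᴴ * (blk X i * P * (blk X i)ᴴ) =
        blk X i * P * ((blk X i)ᴴ * blk X i) * P * (blk X i)ᴴ := by simp only [Matrix.mul_assoc]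
      rw [this, blk_conj_mul, if_pos rfl, Matrix.mul_one, Matrix.mul_assoc (blk X i), hP]
    · intro j _ hj
      have : blk X i * P * (blk X i)ᴴ * (blk X j * P * (blk X j)ᴴ) =
        blk X i * P * ((blk X i)ᴴ * blk X j) * P * (blk X j)ᴴ := by simp only [Matrix.mul_assoc]
      rw [this, blk_conj_mul, if_neg (Ne.symm hj)]
      simp
    · simp
  have hQs : Qᴴ = Q := by
    rw [hQ, conjTranspose_sum]
    apply Finset.sum_congr rfl; intro i _
    rw [conjTranspose_mul, conjTranspose_mul, conjTranspose_conjTranspose, hPs, Matrix.mul_assoc]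
  have hWW : Wᴴ * W = ∑ i, (A i)ᴴ * A i := by
    rw [hW, conjTranspose_sum, Matrix.sum_mul]
    apply Finset.sum_congr rfl; intro i _
    rw [Matrix.mul_sum, Finset.sum_eq_single i]
    · rw [conjTranspose_mul, Matrix.mul_assoc, ← Matrix.mul_assoc (blk X i)ᴴ, blk_conj_mul,
        if_pos rfl, Matrix.one_mul]
    · intro j _ hj
      rw [conjTranspose_mul, Matrix.mul_assoc, ← Matrix.mul_assoc (blk X i)ᴴ, blk_conj_mul,
        if_neg (Ne.symm hj)]
      simp
    · simp
  have hWW' : W * Wᴴ - Q =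
      ∑ i, ∑ j, blk X i * (A i * (A j)ᴴ - (if i = j then P else 0)) * (blk X j)ᴴ := by
    have e1 : W * Wᴴ = ∑ i, ∑ j, blk X i * (A i * (A j)ᴴ) * (blk X j)ᴴ := by
      rw [hW, conjTranspose_sum, Matrix.sum_mul]
      apply Finset.sum_congr rfl; intro i _
      rw [Matrix.mul_sum]
      apply Finset.sum_congr rfl; intro j _
      rw [conjTranspose_mul]; simp only [Matrix.mul_assoc]
    have e2 : Q = ∑ i, ∑ j, blk X i * (if i = j then P else 0) * (blk X j)ᴴ := by
      rw [hQ]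
      apply Finset.sum_congr rfl; intro i _
      rw [Finset.sum_eq_single i]
      · simp
      · intro j _ hj; rw [if_neg (Ne.symm hj)]; simp
      · simp
    rw [e1, e2, ← Finset.sum_sub_distrib]
    apply Finset.sum_congr rfl; intro i _
    rw [← Finset.sum_sub_distrib]
    apply Finset.sum_congr rfl; intro j _
    rw [Matrix.mul_sub, Matrix.sub_mul]
  have hn : ‖W * Wᴴ - Q‖ < 1 / 4 := by
    rw [hWW']
    refine lt_of_le_of_lt ?_ h2
    refine (norm_sum_le _ _).trans (Finset.sum_le_sum fun i _ => ?_)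
    refine (norm_sum_le _ _).trans (Finset.sum_le_sum fun j _ => ?_)
    calc ‖blk X i * (A i * (A j)ᴴ - (if i = j then P else 0)) * (blk X j)ᴴ‖
        ≤ ‖blk X i‖ * ‖A i * (A j)ᴴ - (if i = j then P else 0)‖ * ‖(blk X j)ᴴ‖ := by
          refine (Matrix.l2_opNorm_mul _ _).trans ?_
          gcongr
          exact Matrix.l2_opNorm_mul _ _
      _ ≤ 1 * ‖A i * (A j)ᴴ - (if i = j then P else 0)‖ * 1 := by
          rw [Matrix.l2_opNorm_conjTranspose]
          gcongr
          · exact norm_blk_le i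
          · exact norm_blk_le j
      _ = _ := by ring
  have hr := rank_eq_card_of_approx W Q hQQ hQs (by rw [hWW]; exact h1) hn
  have ht : Q.trace = m * P.trace := by
    rw [hQ, Matrix.trace_sum]
    have : ∀ i : Fin m, (blk X i * P * (blk X i)ᴴ).trace = P.trace := by
      intro i
      rw [Matrix.mul_assoc, Matrix.trace_mul_comm, Matrix.mul_assoc, blk_conj_mul, if_pos rfl,
        Matrix.mul_one]
    simp [this]
  have h5 : ((Fintype.card X : ℕ) : ℂ) = ((m * P.rank : ℕ) : ℂ) := by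
    rw [← hr, rank_eq_trace_of_idem Q hQQ, ht, ← rank_eq_trace_of_idem P hP]
    push_cast; ring
  exact ⟨P.rank, by exact_mod_cast h5⟩

/-- a self-adjoint matrix that is almost idempotent is close to a projection -/
lemma exists_proj_near {X : Type*} [Fintype X] [DecidableEq X] (A : Matrix X X ℂ)
    (hA : Aᴴ = A) (δ : ℝ) (h : ‖A * A - A‖ ≤ δ) :
    ∃ P : Matrix X X ℂ, P * P = P ∧ Pᴴ = P ∧ ‖A - P‖ ≤ 2 * δ := by
  have hsa : IsSelfAdjoint A := hA
  have hδ : 0 ≤ δ := (norm_nonneg _).trans h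
  have hfin : (spectrum ℝ A).Finite := Matrix.finite_real_spectrum
  have hcont : ∀ f : ℝ → ℝ, ContinuousOn f (spectrum ℝ A) := fun f => hfin.continuousOn f
  set g : ℝ → ℝ := fun t => if 1 / 2 < t then 1 else 0 with hg
  have e1 : A * A - A = cfc (fun t : ℝ => t * t - t) A := by
    rw [cfc_sub _ _ A (hcont _) (hcont _), cfc_mul _ _ A (hcont _) (hcont _), cfc_id' ℝ A]
  have hspec : ∀ t ∈ spectrum ℝ A, |t * t - t| ≤ δ := by
    intro t ht
    have := norm_apply_le_norm_cfc (fun t : ℝ => t * t - t) A ht (hcont _) hsa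
    rw [← e1] at this
    simpa using this.trans h
  refine ⟨cfc g A, ?_, ?_, ?_⟩
  · rw [← cfc_mul _ _ A (hcont _) (hcont _)]
    apply cfc_congr
    intro t _
    simp only [hg]
    split_ifs <;> simp
  · exact cfc_predicate g A
  · have e2 : A - cfc g A = cfc (fun t : ℝ => t - g t) A := by
      rw [cfc_sub _ _ A (hcont _) (hcont _), cfc_id' ℝ A]
    rw [e2]
    apply norm_cfc_le (by positivity)
    intro t ht
    have h1 := hspec t ht
    rw [abs_le] at h1
    simp only [hg, Real.norm_eq_abs]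
    split_ifs with h2
    · rw [abs_le]; constructor <;> nlinarith
    · rw [abs_le]; constructor <;> nlinarith

end Pool.Agent.Helper46_UHF
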