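import Pool.Agent.Helper46_UHF.Family
import Pool.Agent.Helper46_UHF.Rank

/-! Approximate matrix units, transported through star homomorphisms. -/

set_option autoImplicit false

open Matrix
open scoped Matrix.Norms.L2Operator

namespace Pool.Agent.Helper46_UHF

lemma norm_mul_star_sub_le {T : Type*} [CStarAlgebra T] {a b a' b' : T} {ε : ℝ} (hε : 0 ≤ ε)
    (ha : ‖a‖ ≤ 1) (hb : ‖b‖ ≤ 1) (ha' : ‖a' - a‖ ≤ ε) (hb' : ‖b' - b‖ ≤ ε) (hε1 : ε ≤ 1) :
    ‖a' * b' - a * b‖ ≤ 3 * ε := by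
  have e : a' * b' - a * b = (a' - a) * (b' - b) + (a' - a) * b + a * (b' - b) := by
    noncomm_ring
  rw [e]
  calc _ ≤ ‖(a' - a) * (b' - b)‖ + ‖(a' - a) * b‖ + ‖a * (b' - b)‖ := norm_add₃_le
    _ ≤ ‖a' - a‖ * ‖b' - b‖ + ‖a' - a‖ * ‖b‖ + ‖a‖ * ‖b' - b‖ := by
        gcongr <;> exact norm_mul_le _ _
    _ ≤ ε * 1 + ε * 1 + 1 * ε := by
        gcongr
        exact hb'.trans hε1
    _ = 3 * ε := by ring

lemma norm_mu_le {X : Type*} [Fintype X] [DecidableEq X] {T : Type*} [CStarAlgebra T]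
    (Ψ : Matrix X X ℂ →⋆ₐ[ℂ] T) (p q : X) : ‖mu Ψ p q‖ ≤ 1 := by
  have h1 : ∀ p, ‖mu Ψ p p‖ ≤ 1 := by
    intro p
    have h : ‖star (mu Ψ p p) * mu Ψ p p‖ = ‖mu Ψ p p‖ * ‖mu Ψ p p‖ :=
      CStarRing.norm_star_mul_self
    rw [star_mu, mu_mul_same] at h
    nlinarith [norm_nonneg (mu Ψ p p)]
  have h : ‖star (mu Ψ p q) * mu Ψ p q‖ = ‖mu Ψ p q‖ * ‖mu Ψ p q‖ :=
      CStarRing.norm_star_mul_self
  rw [star_mu, mu_mul_same] at h
  nlinarith [norm_nonneg (mu Ψ p q), h1 q]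

lemma dvd_of_approx_hom {A T : Type*} [CStarAlgebra A] [CStarAlgebra T] {X : Type*} [Fintype X]
    [DecidableEq X] {m : ℕ} [NeZero m] (ψ : Matrix (Fin m) (Fin m) ℂ →⋆ₐ[ℂ] T)
    (ρ : A →⋆ₐ[ℂ] T) (hρ : Function.Injective ρ) (π : A →⋆ₐ[ℂ] Matrix X X ℂ)
    (w : Fin m → A) (ε : ℝ) (hε0 : 0 ≤ ε) (hε : ε * (200 * (m : ℝ) ^ 2) ≤ 1)
    (hw : ∀ i, ‖ρ (w i) - mu ψ 0 i‖ ≤ ε) : m ∣ Fintype.card X := by
  have hm : (1 : ℝ) ≤ m := by exact_mod_cast Nat.one_le_iff_ne_zero.mpr (NeZero.ne m)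
  have hm2 : (1 : ℝ) ≤ (m : ℝ) ^ 2 := by nlinarith
  have hε1 : ε ≤ 1 / 200 := by nlinarith
  have hπ : ∀ a : A, ‖π a‖ ≤ ‖ρ a‖ := by
    intro a
    rw [NonUnitalStarAlgHom.norm_map ρ hρ]
    exact NonUnitalStarAlgHom.norm_apply_le π a
  have hws : ∀ i, ‖ρ (star (w i)) - mu ψ i 0‖ ≤ ε := by
    intro i
    rw [map_star, ← star_mu, ← star_sub, norm_star]
    exact hw i
  -- products
  have p1 : ∀ i j, ‖ρ (w i * star (w j)) - (if i = j then mu ψ 0 0 else 0)‖ ≤ 3 * ε := by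
    intro i j
    have := norm_mul_star_sub_le hε0 (norm_mu_le ψ 0 i) (norm_mu_le ψ j 0) (hw i) (hws j)
      (by linarith)
    rwa [mu_mul, ← map_mul] at this
  have p2 : ∀ i, ‖ρ (star (w i) * w i) - mu ψ i i‖ ≤ 3 * ε := by
    intro i
    have := norm_mul_star_sub_le hε0 (norm_mu_le ψ i 0) (norm_mu_le ψ 0 i) (hws i) (hw i)
      (by linarith)
    rwa [mu_mul_same, ← map_mul] at this
  set H : A := w 0 * star (w 0) with hH
  have q0 : ‖ρ H - mu ψ 0 0‖ ≤ 3 * ε := by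
    have := p1 0 0
    rwa [if_pos rfl] at this
  have hHsa : star H = H := by rw [hH, star_mul, star_star]
  have q1 : ‖ρ (H * H) - mu ψ 0 0‖ ≤ 9 * ε := by
    have := norm_mul_star_sub_le (by linarith) (norm_mu_le ψ 0 0) (norm_mu_le ψ 0 0) q0 q0
      (by linarith)
    rw [mu_mul_same, ← map_mul] at this
    linarith
  have q2 : ‖π H * π H - π H‖ ≤ 12 * ε := by
    rw [← map_mul, ← map_sub]
    refine (hπ _).trans ?_
    rw [map_sub]
    have e : ρ (H * H) - ρ H = (ρ (H * H) - mu ψ 0 0) - (ρ H - mu ψ 0 0) := by abel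
    rw [e]
    refine (norm_sub_le _ _).trans ?_
    linarith
  have hHs2 : (π H)ᴴ = π H := by
    have := map_star π H
    rw [hHsa] at this
    exact this.symm
  obtain ⟨P, hP1, hP2, hP3⟩ := exists_proj_near (π H) hHs2 (12 * ε) q2
  have r1 : ‖∑ i, (π (w i))ᴴ * π (w i) - 1‖ ≤ m * (3 * ε) := by
    have e : ∑ i, (π (w i))ᴴ * π (w i) - 1 = π (∑ i, star (w i) * w i - 1) := by
      rw [map_sub, map_one, map_sum]
      congr 1
      apply Finset.sum_congr rfl; intro i _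
      rw [map_mul, map_star]; rfl
    rw [e]
    refine (hπ _).trans ?_
    rw [map_sub, map_one, map_sum, ← sum_mu ψ, ← Finset.sum_sub_distrib]
    refine (norm_sum_le _ _).trans ?_
    calc ∑ i, ‖ρ (star (w i) * w i) - mu ψ i i‖ ≤ ∑ _i : Fin m, 3 * ε :=
          Finset.sum_le_sum (fun i _ => p2 i)
      _ = m * (3 * ε) := by simp
  have r2 : ∀ i j, ‖π (w i) * (π (w j))ᴴ - (if i = j then P else 0)‖ ≤ 30 * ε := by
    intro i j
    have e : π (w i) * (π (w j))ᴴ = π (w i * star (w j)) := by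
      rw [map_mul, map_star]; rfl
    rw [e]
    by_cases hij : i = j
    · subst hij
      rw [if_pos rfl]
      have e2 : π (w i * star (w i)) - P = π (w i * star (w i) - H) + (π H - P) := by
        rw [map_sub]; abel
      rw [e2]
      have e3 : ‖π (w i * star (w i) - H)‖ ≤ 6 * ε := by
        refine (hπ _).trans ?_
        rw [map_sub]
        have e4 : ρ (w i * star (w i)) - ρ H =
          (ρ (w i * star (w i)) - mu ψ 0 0) - (ρ H - mu ψ 0 0) := by abel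
        rw [e4]
        have := p1 i i
        rw [if_pos rfl] at this
        refine (norm_sub_le _ _).trans ?_
        linarith
      refine (norm_add_le _ _).trans ?_
      linarith
    · rw [if_neg hij, sub_zero]
      refine (hπ _).trans ?_
      have := p1 i j
      rw [if_neg hij, sub_zero] at this
      linarith
  have hεm : m * (3 * ε) < 1 / 4 := by
    have : (m : ℝ) ≤ (m : ℝ) ^ 2 := by nlinarith
    nlinarith
  apply dvd_card_of_approx (fun i => π (w i)) P hP1 hP2 (lt_of_le_of_lt r1 hεm)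
  calc ∑ i, ∑ j, ‖π (w i) * (π (w j))ᴴ - (if i = j then P else 0)‖
      ≤ ∑ _i : Fin m, ∑ _j : Fin m, 30 * ε :=
        Finset.sum_le_sum fun i _ => Finset.sum_le_sum fun j _ => r2 i j
    _ = m * (m * (30 * ε)) := by simp
    _ < 1 / 4 := by nlinarith

end Pool.Agent.Helper46_UHF
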