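import Pool.Agent.Helper46_UHF.Support
import Mathlib.Analysis.InnerProductSpace.l2Space
import Mathlib.Analysis.InnerProductSpace.Adjoint

/-! Existence of the infinite tensor product of matrix algebras, represented on the Hilbert space
of square summable functions on the set of all configurations. -/

set_option autoImplicit false

open Matrix
open scoped ENNReal

namespace Pool.Agent.Helper46_UHF

universe u

variable {J : Type u} [DecidableEq J] (n : J → ℕ)

/-- configurations -/
abbrev Conf : Type u := ∀ j, Fin (n j)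

/-- the Hilbert space -/
abbrev Hs : Type u := lp (fun _ : Conf n => ℂ) 2

/-- the involution of configurations exchanging the values `p` and `q` at `j` -/
def sw (j : J) (p q : Fin (n j)) : Equiv.Perm (Conf n) where
  toFun x := Function.update x j (Equiv.swap p q (x j))
  invFun x := Function.update x j (Equiv.swap p q (x j))
  left_inv x := by simp
  right_inv x := by simp

variable {n}

lemma sw_apply_self (j : J) (p q : Fin (n j)) (x : Conf n) :
    (sw n j p q x) j = Equiv.swap p q (x j) := by simp [sw]

lemma sw_sw (j : J) (p q : Fin (n j)) (x : Conf n) : sw n j p q (sw n j p q x) = x :=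
  (sw n j p q).left_inv x

lemma sw_of_eq (j : J) (p q : Fin (n j)) (x : Conf n) (h : x j = p) :
    sw n j p q x = Function.update x j q := by
  subst h; simp [sw]

omit [DecidableEq J] in
lemma summable_sq (g : Hs n) : Summable fun x => ‖g x‖ ^ (2 : ℝ≥0∞).toReal :=
  (memℓp_gen_iff (by norm_num)).1 g.2

lemma mem_op (j : J) (p q : Fin (n j)) (g : Hs n) :
    Memℓp (fun x : Conf n => if x j = p then g (sw n j p q x) else 0) 2 := by
  rw [memℓp_gen_iff (by norm_num)]
  have h := (Equiv.summable_iff (sw n j p q)).2 (summable_sq g)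
  refine Summable.of_nonneg_of_le (fun x => by positivity) (fun x => ?_) h
  simp only [Function.comp]
  split_ifs
  · exact le_rfl
  · simp

/-- matrix units, as linear maps -/
def opLin (j : J) (p q : Fin (n j)) : Hs n →ₗ[ℂ] Hs n where
  toFun g := ⟨fun x => if x j = p then g (sw n j p q x) else 0, mem_op j p q g⟩
  map_add' g h := by
    ext x
    change (if x j = p then (g + h) (sw n j p q x) else 0) =
      (if x j = p then g (sw n j p q x) else 0) + (if x j = p then h (sw n j p q x) else 0)
    split_ifs
    · rfl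
    · simp
  map_smul' c g := by
    ext x
    change (if x j = p then (c • g) (sw n j p q x) else 0) =
      c • (if x j = p then g (sw n j p q x) else 0)
    split_ifs
    · rfl
    · simp

lemma opLin_apply (j : J) (p q : Fin (n j)) (g : Hs n) (x : Conf n) :
    (opLin j p q g) x = if x j = p then g (sw n j p q x) else 0 := rfl

lemma norm_opLin_le (j : J) (p q : Fin (n j)) (g : Hs n) : ‖opLin j p q g‖ ≤ 1 * ‖g‖ := by
  rw [one_mul]
  have h2 : (0 : ℝ) < (2 : ℝ≥0∞).toReal := by norm_num
  have h1 : ‖opLin j p q g‖ ^ (2 : ℝ≥0∞).toReal ≤ ‖g‖ ^ (2 : ℝ≥0∞).toReal := by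
    rw [lp.norm_rpow_eq_tsum h2, lp.norm_rpow_eq_tsum h2]
    have h := (Equiv.summable_iff (sw n j p q)).2 (summable_sq g)
    rw [← Equiv.tsum_eq (sw n j p q) (fun x => ‖g x‖ ^ (2 : ℝ≥0∞).toReal)]
    refine Summable.tsum_le_tsum (fun x => ?_) (summable_sq (opLin j p q g)) h
    rw [opLin_apply]
    split_ifs
    · exact le_rfl
    · simp
  exact (Real.rpow_le_rpow_iff (norm_nonneg _) (norm_nonneg _) h2).1 h1

/-- matrix units, as bounded operators -/
noncomputable def op (j : J) (p q : Fin (n j)) : Hs n →L[ℂ] Hs n :=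
  (opLin j p q).mkContinuous 1 (norm_opLin_le j p q)

lemma op_apply (j : J) (p q : Fin (n j)) (g : Hs n) (x : Conf n) :
    (op j p q g) x = if x j = p then g (sw n j p q x) else 0 := rfl

lemma op_apply' (j : J) (p q : Fin (n j)) (g : Hs n) (x : Conf n) :
    (op j p q g) x = if x j = p then g (Function.update x j q) else 0 := by
  rw [op_apply]
  split_ifs with h
  · rw [sw_of_eq j p q x h]
  · rfl

lemma op_mul (j : J) (p q r s : Fin (n j)) :
    op j p q * op j r s = if q = r then op j p s else 0 := by
  ext g x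
  change (op j p q (op j r s g)) x = _
  rw [op_apply', op_apply']
  by_cases hqr : q = r
  · subst hqr
    simp only [Function.update_self, if_true, Function.update_idem]
    rw [op_apply']
  · simp only [Function.update_self, hqr, if_false, ite_self]
    rfl

lemma op_star (j : J) (p q : Fin (n j)) : star (op j p q) = op j q p := by
  rw [ContinuousLinearMap.star_eq_adjoint]
  symm
  rw [ContinuousLinearMap.eq_adjoint_iff]
  intro g h
  rw [lp.inner_eq_tsum, lp.inner_eq_tsum]
  rw [← Equiv.tsum_eq (sw n j p q) (fun x => inner ℂ ((op j q p g) x) (h x))]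
  apply tsum_congr
  intro x
  rw [op_apply, op_apply, sw_apply_self]
  have e : sw n j q p (sw n j p q x) = x := by
    have : sw n j q p = sw n j p q := by
      ext y; simp [sw, Equiv.swap_comm]
    rw [this, sw_sw]
  rw [e]
  by_cases hx : x j = p
  · rw [if_pos hx, hx, Equiv.swap_apply_left, if_pos rfl]
  · rw [if_neg hx, if_neg, inner_zero_left, inner_zero_right]
    intro h'
    rw [Equiv.swap_apply_eq_iff, Equiv.swap_apply_right] at h'
    exact hx h'

lemma op_sum (j : J) : ∑ p, op j p p = (1 : Hs n →L[ℂ] Hs n) := by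
  ext g x
  rw [_root_.sum_apply]
  have : (∑ p, op j p p g : Hs n) x = ∑ p, (op j p p g) x := by
    rw [lp.coeFn_sum, Finset.sum_apply]
  rw [this]
  simp only [op_apply']
  rw [Finset.sum_ite_eq]
  simp

lemma op_comm {i j : J} (hij : i ≠ j) (p q : Fin (n i)) (r s : Fin (n j)) :
    Commute (op i p q) (op j r s) := by
  rw [commute_iff_eq]
  ext g x
  change (op i p q (op j r s g)) x = (op j r s (op i p q g)) x
  rw [op_apply', op_apply', op_apply', op_apply', Function.update_of_ne hij.symm,
    Function.update_of_ne hij, Function.update_comm hij]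
  split_ifs <;> rfl

/-- the representation of the factor `j` -/
noncomputable def rep (j : J) : Matrix (Fin (n j)) (Fin (n j)) ℂ →⋆ₐ[ℂ] (Hs n →L[ℂ] Hs n) :=
  ofUnits (op j) (fun p q r s => op_mul j p q r s) (fun p q => op_star j p q) (op_sum j)

lemma rep_comm : CommFam (rep (n := n)) := by
  intro i j hij a b
  rw [map_eq_sum (rep i) a, map_eq_sum (rep j) b]
  refine Commute.sum_left _ _ _ (fun p _ => Commute.sum_left _ _ _ (fun q _ => ?_))
  refine Commute.sum_right _ _ _ (fun r _ => Commute.sum_right _ _ _ (fun s _ => ?_))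
  refine Commute.smul_left (Commute.smul_right ?_ _) _
  unfold rep
  rw [mu_ofUnits, mu_ofUnits]
  exact op_comm hij p q r s

omit [DecidableEq J] in
lemma nontrivial_op (hn : ∀ j, 0 < n j) : Nontrivial (Hs n →L[ℂ] Hs n) := by
  classical
  have : Nonempty (Conf n) := ⟨fun j => ⟨0, hn j⟩⟩
  obtain ⟨x⟩ := this
  have : Nontrivial (Hs n) := by
    refine ⟨⟨lp.single 2 x (1 : ℂ), 0, ?_⟩⟩
    intro h
    have := congrArg (fun g : Hs n => g x) h
    simp at this
  infer_instance

end Pool.Agent.Helper46_UHF

namespace Pool.Agent.Helper46_UHF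

universe u v

/-- restricting a dense-generation situation to the closed subalgebra generated by a family -/
theorem exists_closure_model {J : Type*} {n : J → ℕ} {T : Type v} [CStarAlgebra T] [Nontrivial T]
    {ρ : ∀ j, Matrix (Fin (n j)) (Fin (n j)) ℂ →⋆ₐ[ℂ] T} (hρ : CommFam ρ) :
    ∃ (A : Type v) (_ : CStarAlgebra A) (_ : Nontrivial A)
      (φ : ∀ j, Matrix (Fin (n j)) (Fin (n j)) ℂ →⋆ₐ[ℂ] A), CommFam φ ∧
        Dense (alg φ Set.univ : Set A) := by
  let A := (alg ρ Set.univ).topologicalClosure
  let cA : CStarAlgebra A := StarSubalgebra.cstarAlgebra A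
    (h_closed := StarSubalgebra.isClosed_topologicalClosure _)
  have hmem : ∀ j M, ρ j M ∈ A := fun j M =>
    StarSubalgebra.le_topologicalClosure _ (range_le_alg ρ (Set.mem_univ j) ⟨M, rfl⟩)
  let φ : ∀ j, Matrix (Fin (n j)) (Fin (n j)) ℂ →⋆ₐ[ℂ] A := fun j =>
    StarAlgHom.codRestrict (ρ j) A (hmem j)
  refine ⟨A, cA, (inferInstance : Nontrivial A), φ, ?_, ?_⟩
  · intro i j hij a b
    exact Subtype.ext (hρ i j hij a b)
  · have hle : alg ρ Set.univ ≤ (alg φ Set.univ).map A.subtype := by
      rw [alg_le_iff]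
      rintro j hj _ ⟨M, rfl⟩
      exact ⟨φ j M, range_le_alg φ hj ⟨M, rfl⟩, rfl⟩
    intro z
    have hz : z.1 ∈ closure (alg ρ Set.univ : Set T) := z.2
    rw [Metric.mem_closure_iff]
    intro ε hε
    obtain ⟨y, hy, hyz⟩ := Metric.mem_closure_iff.1 hz ε hε
    obtain ⟨w, hw, rfl⟩ := hle hy
    exact ⟨w, hw, hyz⟩

/-- every family of positive integers has an infinite tensor product of matrix algebras -/
theorem exists_model {J : Type u} {n : J → ℕ} (hn : ∀ j, 0 < n j) :
    ∃ (A : Type u) (_ : CStarAlgebra A) (_ : Nontrivial A)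
      (φ : ∀ j, Matrix (Fin (n j)) (Fin (n j)) ℂ →⋆ₐ[ℂ] A), CommFam φ ∧
        Dense (alg φ Set.univ : Set A) := by
  classical
  have := nontrivial_op hn
  exact exists_closure_model (rep_comm (n := n))

end Pool.Agent.Helper46_UHF
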