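import Pool.Agent.Helper46_UHF.Divis
import Pool.Agent.Helper46_UHF.Exist

/-! Assembling the answer. -/

set_option autoImplicit false

open Matrix Cardinal

namespace Pool.Agent.Helper46_UHF

universe u

lemma dense_iff {I : Type*} {n : I → ℕ} {A : Type*} [CStarAlgebra A]
    (φ : ∀ i, Matrix (Fin (n i)) (Fin (n i)) ℂ →⋆ₐ[ℂ] A) :
    Dense ((StarAlgebra.adjoin ℂ (⋃ i, Set.range (φ i)) : StarSubalgebra ℂ A) : Set A) ↔
      Dense (alg φ Set.univ : Set A) := by
  unfold alg
  rw [Set.biUnion_univ]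

lemma mem_of_dense {I : Type*} {n : I → ℕ} {A : Type*} [CStarAlgebra A]
    {φ : ∀ i, Matrix (Fin (n i)) (Fin (n i)) ℂ →⋆ₐ[ℂ] A} (hd : Dense (alg φ Set.univ : Set A))
    (S : StarSubalgebra ℂ A) (hS : IsClosed (S : Set A)) (h : ∀ i M, φ i M ∈ S) (a : A) : a ∈ S := by
  have h1 : alg φ Set.univ ≤ S := by
    rw [alg_le_iff]
    rintro i - _ ⟨M, rfl⟩
    exact h i M
  have h2 : closure (alg φ Set.univ : Set A) ⊆ S := closure_minimal h1 hS
  exact h2 (hd a)

lemma closed_comap {A E : Type*} [CStarAlgebra A] [CStarAlgebra E] (α : A →⋆ₐ[ℂ] E)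
    (S : StarSubalgebra ℂ E) (hS : IsClosed (S : Set E)) :
    IsClosed ((S.comap α : StarSubalgebra ℂ A) : Set A) :=
  hS.preimage (AddMonoidHomClass.continuous_of_bound α 1
    (fun x => by rw [one_mul]; exact NonUnitalStarAlgHom.norm_apply_le α x))

lemma closed_centralizer {E : Type*} [CStarAlgebra E] (s : Set E) :
    IsClosed ((StarSubalgebra.centralizer ℂ s : StarSubalgebra ℂ E) : Set E) := by
  rw [StarSubalgebra.coe_centralizer]
  exact Set.isClosed_centralizer _

lemma commute_of_dense {I K : Type*} {n : I → ℕ} {m : K → ℕ} {A B E : Type*} [CStarAlgebra A]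
    [CStarAlgebra B] [CStarAlgebra E]
    {φ : ∀ i, Matrix (Fin (n i)) (Fin (n i)) ℂ →⋆ₐ[ℂ] A} (hφ : Dense (alg φ Set.univ : Set A))
    {ψ : ∀ i, Matrix (Fin (m i)) (Fin (m i)) ℂ →⋆ₐ[ℂ] B} (hψ : Dense (alg ψ Set.univ : Set B))
    (α : A →⋆ₐ[ℂ] E) (β : B →⋆ₐ[ℂ] E)
    (h : ∀ i M k N, Commute (α (φ i M)) (β (ψ k N))) (a : A) (b : B) : Commute (α a) (β b) := by
  have h1 : ∀ i M (b : B), Commute (α (φ i M)) (β b) := by
    intro i M b
    have := mem_of_dense hψ ((StarSubalgebra.centralizer ℂ {α (φ i M)}).comap β)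
      (closed_comap β _ (closed_centralizer _)) (fun k N => by
        change β (ψ k N) ∈ StarSubalgebra.centralizer ℂ {α (φ i M)}
        rw [StarSubalgebra.mem_centralizer_iff]
        intro g hg
        rw [Set.mem_singleton_iff] at hg
        subst hg
        refine ⟨(h i M k N).eq, ?_⟩
        rw [← map_star, ← map_star]
        exact (h i (star M) k N).eq) b
    change β b ∈ StarSubalgebra.centralizer ℂ {α (φ i M)} at this
    rw [StarSubalgebra.mem_centralizer_iff] at this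
    exact (this _ rfl).1
  have := mem_of_dense hφ ((StarSubalgebra.centralizer ℂ {β b}).comap α)
    (closed_comap α _ (closed_centralizer _)) (fun i M => by
      change α (φ i M) ∈ StarSubalgebra.centralizer ℂ {β b}
      rw [StarSubalgebra.mem_centralizer_iff]
      intro g hg
      rw [Set.mem_singleton_iff] at hg
      subst hg
      refine ⟨(h1 i M b).eq.symm, ?_⟩
      rw [← map_star]
      exact (h1 i M (star b)).eq.symm) a
  change α a ∈ StarSubalgebra.centralizer ℂ {β b} at this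
  rw [StarSubalgebra.mem_centralizer_iff] at this
  exact (this _ rfl).1.symm

/-- the family of a tensor product of two infinite tensor products -/
noncomputable def sumFam {I K : Type*} {n : I → ℕ} {m : K → ℕ} {E : Type*} [CStarAlgebra E]
    (α : ∀ i, Matrix (Fin (n i)) (Fin (n i)) ℂ →⋆ₐ[ℂ] E)
    (β : ∀ i, Matrix (Fin (m i)) (Fin (m i)) ℂ →⋆ₐ[ℂ] E) :
    ∀ x : I ⊕ K, Matrix (Fin (Sum.elim n m x)) (Fin (Sum.elim n m x)) ℂ →⋆ₐ[ℂ] E
  | Sum.inl i => α i
  | Sum.inr k => β k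

lemma sumFam_comm {I K : Type*} {n : I → ℕ} {m : K → ℕ} {E : Type*} [CStarAlgebra E]
    {α : ∀ i, Matrix (Fin (n i)) (Fin (n i)) ℂ →⋆ₐ[ℂ] E} (hα : CommFam α)
    {β : ∀ i, Matrix (Fin (m i)) (Fin (m i)) ℂ →⋆ₐ[ℂ] E} (hβ : CommFam β)
    (h : ∀ i M k N, Commute (α i M) (β k N)) : CommFam (sumFam α β) := by
  rintro (i | k) (j | l) hij a b
  · exact hα i j (fun h => hij (by rw [h])) a b
  · exact h _ _ _ _
  · exact (h _ _ _ _).symm
  · exact hβ k l (fun h => hij (by rw [h])) a b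

lemma comp_comm {I : Type*} {n : I → ℕ} {A E : Type*} [CStarAlgebra A] [CStarAlgebra E]
    {φ : ∀ i, Matrix (Fin (n i)) (Fin (n i)) ℂ →⋆ₐ[ℂ] A} (hφ : CommFam φ) (α : A →⋆ₐ[ℂ] E) :
    CommFam (fun i => α.comp (φ i)) := by
  intro i j hij a b
  exact (hφ i j hij a b).map α

/-- The tensor product of two infinite tensor products is the tensor product of the joint
family. -/
lemma tensor_family {I K : Type*} {n : I → ℕ} {m : K → ℕ} {A B E : Type*} [CStarAlgebra A]
    [CStarAlgebra B] [CStarAlgebra E]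
    {φ : ∀ i, Matrix (Fin (n i)) (Fin (n i)) ℂ →⋆ₐ[ℂ] A} (hφc : CommFam φ)
    (hφ : Dense (alg φ Set.univ : Set A))
    {ψ : ∀ i, Matrix (Fin (m i)) (Fin (m i)) ℂ →⋆ₐ[ℂ] B} (hψc : CommFam ψ)
    (hψ : Dense (alg ψ Set.univ : Set B))
    (α : A →⋆ₐ[ℂ] E) (β : B →⋆ₐ[ℂ] E) (h : ∀ a b, Commute (α a) (β b))
    (hE : Dense ((StarAlgebra.adjoin ℂ (Set.range α ∪ Set.range β) : StarSubalgebra ℂ E) : Set E)) :
    CommFam (sumFam (fun i => α.comp (φ i)) (fun k => β.comp (ψ k))) ∧
      Dense (alg (sumFam (fun i => α.comp (φ i)) (fun k => β.comp (ψ k))) Set.univ : Set E) := by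
  refine ⟨sumFam_comm (comp_comm hφc α) (comp_comm hψc β) (fun i M k N => h _ _), ?_⟩
  set χ := sumFam (fun i => α.comp (φ i)) (fun k => β.comp (ψ k)) with hχ
  set D := (alg χ Set.univ).topologicalClosure with hD
  have hDc : IsClosed (D : Set E) := StarSubalgebra.isClosed_topologicalClosure _
  have h1 : ∀ a, α a ∈ D := fun a => mem_of_dense hφ (D.comap α) (closed_comap α _ hDc)
    (fun i M => StarSubalgebra.le_topologicalClosure _
      (range_le_alg χ (Set.mem_univ (Sum.inl i)) ⟨M, rfl⟩)) a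
  have h2 : ∀ b, β b ∈ D := fun b => mem_of_dense hψ (D.comap β) (closed_comap β _ hDc)
    (fun i M => StarSubalgebra.le_topologicalClosure _
      (range_le_alg χ (Set.mem_univ (Sum.inr i)) ⟨M, rfl⟩)) b
  have h3 : StarAlgebra.adjoin ℂ (Set.range α ∪ Set.range β) ≤ D := by
    apply StarAlgebra.adjoin_le
    rintro _ (⟨a, rfl⟩ | ⟨b, rfl⟩)
    · exact h1 a
    · exact h2 b
  intro e
  have h4 : closure ((StarAlgebra.adjoin ℂ (Set.range α ∪ Set.range β) : StarSubalgebra ℂ E) :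
    Set E) ⊆ D := closure_minimal h3 hDc
  exact h4 (hE e)

/-- The positive part: if `#K + #K ≤ #K'` and `#K < #K'`. -/
theorem positive {I K K' : Type u} {n : I → ℕ} {A B B' E : Type*} [CStarAlgebra A]
    [CStarAlgebra B] [CStarAlgebra B'] [CStarAlgebra E] [Nontrivial A] [Nontrivial B]
    [Nontrivial E]
    {φ : ∀ i, Matrix (Fin (n i)) (Fin (n i)) ℂ →⋆ₐ[ℂ] A} (hφc : CommFam φ)
    (hφ : Dense (alg φ Set.univ : Set A))
    {ψ : ∀ _ : K, Matrix (Fin 2) (Fin 2) ℂ →⋆ₐ[ℂ] B} (hψc : CommFam (n := fun _ : K => 2) ψ)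
    (hψ : Dense (alg (n := fun _ : K => 2) ψ Set.univ : Set B))
    {ψ' : ∀ _ : K', Matrix (Fin 2) (Fin 2) ℂ →⋆ₐ[ℂ] B'}
    (hψ'c : CommFam (n := fun _ : K' => 2) ψ')
    (α : A →⋆ₐ[ℂ] E) (β : B →⋆ₐ[ℂ] E) (h : ∀ a b, Commute (α a) (β b))
    (hE : Dense ((StarAlgebra.adjoin ℂ (Set.range α ∪ Set.range β) : StarSubalgebra ℂ E) : Set E))
    (f : B' →⋆ₐ[ℂ] E) (hlt : #K < #K') (hle : #K + #K ≤ #K') :
    ∃ g : B →⋆ₐ[ℂ] A, Function.Injective g := by
  classical
  obtain ⟨hχc, hχ⟩ := tensor_family hφc hφ hψc hψ α β h hE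
  set χ := sumFam (n := n) (m := fun _ : K => 2) (fun i => α.comp (φ i)) (fun k => β.comp (ψ k))
  have hθ : CommFam (n := fun _ : K' => 2) (fun k => f.comp (ψ' k)) := comp_comm hψ'c f
  rcases finite_or_infinite K with hK | hK
  · have : Fintype K := Fintype.ofFinite K
    set N := Fintype.card K with hN
    have hcard : #(ULift.{u} (Fin (N + N))) ≤ #K' := by
      rw [mk_uLift, mk_fin, lift_natCast, Nat.cast_add]
      rw [mk_fintype K] at hle
      exact hle
    rw [Cardinal.le_def] at hcard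
    obtain ⟨e⟩ := hcard
    let θ : ∀ _ : Fin (N + N), Matrix (Fin 2) (Fin 2) ℂ →⋆ₐ[ℂ] E := fun k =>
      f.comp (ψ' (e (ULift.up k)))
    have hθ' : CommFam (n := fun _ : Fin (N + N) => 2) θ := by
      intro i j hij a b
      refine hθ _ _ ?_ a b
      intro h
      exact hij (ULift.up_injective (e.injective h))
    have hdim : dim (fun _ : Fin (N + N) => 2) Finset.univ = 2 ^ (N + N) := by
      unfold dim
      rw [Finset.prod_const, Finset.card_univ, Fintype.card_fin]
    have hne : NeZero (dim (fun _ : Fin (N + N) => 2) Finset.univ) := ⟨by rw [hdim]; positivity⟩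
    obtain ⟨F, hF⟩ := exists_dvd hχc hχ (hom hθ' Finset.univ)
    rw [hdim] at hF
    have hprod : ∏ x ∈ F, Sum.elim n (fun _ : K => 2) x =
        (∏ i ∈ F.toLeft, n i) * 2 ^ F.toRight.card := by
      conv_lhs => rw [← Finset.toLeft_disjSum_toRight (u := F)]
      rw [Finset.prod_disjSum]
      simp
    rw [hprod] at hF
    have hcardR : F.toRight.card ≤ N := by rw [hN]; exact Finset.card_le_univ _
    have hdvd : 2 ^ N ∣ ∏ i ∈ F.toLeft, n i := by
      have h1 : 2 ^ N * 2 ^ N ∣ (∏ i ∈ F.toLeft, n i) * 2 ^ N := by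
        rw [← pow_add]
        exact hF.trans (Nat.mul_dvd_mul_left _ (pow_dvd_pow 2 hcardR))
      exact Nat.dvd_of_mul_dvd_mul_right (by positivity) h1
    exact exists_embedding_of_dvd hψc hψ hφc F.toLeft hdvd
  · have hKinf : ℵ₀ ≤ #K := aleph0_le_mk K
    have hbound := card_le hχc hχ (fun k => f.comp (ψ' k)) hθ
    have h1 : #K' ≤ #({x | Even (Sum.elim n (fun _ : K => 2) x)} : Set (I ⊕ K)) := by
      rcases le_max_iff.1 hbound with h | h
      · exact h
      · exact absurd (hKinf.trans_lt hlt) (not_lt.mpr h)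
    have h2 : #({x | Even (Sum.elim n (fun _ : K => 2) x)} : Set (I ⊕ K)) ≤
        #({i | Even (n i)} : Set I) + #K := by
      have : Function.Injective (fun x : ({x | Even (Sum.elim n (fun _ : K => 2) x)} :
          Set (I ⊕ K)) => (match x with
            | ⟨Sum.inl i, hi⟩ => Sum.inl ⟨i, hi⟩
            | ⟨Sum.inr k, _⟩ => Sum.inr k : ({i | Even (n i)} : Set I) ⊕ K)) := by
        rintro ⟨i | k, hi⟩ ⟨j | l, hj⟩ hij
        · simp only [Sum.inl.injEq] at hij
          obtain rfl : i = j := congrArg Subtype.val hij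
          rfl
        · simp at hij
        · simp at hij
        · simp only [Sum.inr.injEq] at hij
          subst hij; rfl
      calc _ ≤ #(({i | Even (n i)} : Set I) ⊕ K) := mk_le_of_injective this
        _ = _ := (add_def _ _).symm
    have h3 : #K' ≤ #({i | Even (n i)} : Set I) := by
      by_contra hcon
      rw [not_le] at hcon
      have := add_lt_of_lt (hKinf.trans hlt.le) hcon hlt
      exact absurd (h1.trans h2) (not_le.mpr this)
    have h4 : #K ≤ #({i | Even (n i)} : Set I) := hlt.le.trans h3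
    rw [Cardinal.le_def] at h4
    obtain ⟨e⟩ := h4
    have hg : ∀ k : K, Nonempty (Matrix (Fin 2) (Fin 2) ℂ →⋆ₐ[ℂ]
        Matrix (Fin (n (e k).1)) (Fin (n (e k).1)) ℂ) := fun k =>
      exists_hom_of_dvd (even_iff_two_dvd.1 (e k).2)
    have g := fun k => (hg k).some
    have hcomm : CommFam (n := fun _ : K => 2) (fun k => (φ (e k).1).comp (g k)) := by
      intro i j hij a b
      refine hφc _ _ ?_ _ _
      intro h
      exact hij (e.injective (Subtype.ext h))
    obtain ⟨G, hG, -⟩ := exists_embedding hψc hψ hcomm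
    exact ⟨G, hG⟩

/-- The negative part: if `#K < #K' < #K + #K` there is a counterexample. -/
theorem negative (K K' : Type u) (hlt : #K < #K') (hlt' : #K' < #K + #K) :
    ∃ (I : Type u) (n : I → ℕ) (A B B' E : Type u) (_ : CStarAlgebra A) (_ : CStarAlgebra B)
      (_ : CStarAlgebra B') (_ : CStarAlgebra E) (_ : Nontrivial A) (_ : Nontrivial B)
      (_ : Nontrivial B') (_ : Nontrivial E)
      (φ : ∀ i, Matrix (Fin (n i)) (Fin (n i)) ℂ →⋆ₐ[ℂ] A)
      (ψ : ∀ _ : K, Matrix (Fin 2) (Fin 2) ℂ →⋆ₐ[ℂ] B)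
      (ψ' : ∀ _ : K', Matrix (Fin 2) (Fin 2) ℂ →⋆ₐ[ℂ] B') (α : A →⋆ₐ[ℂ] E) (β : B →⋆ₐ[ℂ] E),
      (∀ i, 0 < n i) ∧ CommFam φ ∧ Dense (alg φ Set.univ : Set A) ∧
      CommFam (n := fun _ : K => 2) ψ ∧ Dense (alg (n := fun _ : K => 2) ψ Set.univ : Set B) ∧
      CommFam (n := fun _ : K' => 2) ψ' ∧
      Dense (alg (n := fun _ : K' => 2) ψ' Set.univ : Set B') ∧
      (∀ a b, Commute (α a) (β b)) ∧
      Dense ((StarAlgebra.adjoin ℂ (Set.range α ∪ Set.range β) : StarSubalgebra ℂ E) : Set E) ∧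
      (∃ f : B' →⋆ₐ[ℂ] E, Function.Injective f) ∧ ¬ ∃ g : B →⋆ₐ[ℂ] A, Function.Injective g := by
  classical
  -- both index types are finite
  have hKfin : Finite K := by
    by_contra hcon
    rw [not_finite_iff_infinite] at hcon
    have h1 : ℵ₀ ≤ #K := aleph0_le_mk K
    rw [add_eq_self h1] at hlt'
    exact absurd hlt (not_lt.mpr hlt'.le)
  have : Fintype K := Fintype.ofFinite K
  have hK'fin : Finite K' := by
    rw [← lt_aleph0_iff_finite]
    refine hlt'.trans (add_lt_aleph0 ?_ ?_) <;> exact lt_aleph0_of_finite K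
  have : Fintype K' := Fintype.ofFinite K'
  set N := Fintype.card K with hN
  set N' := Fintype.card K' with hN'
  have hNN' : N < N' := by
    rw [mk_fintype, mk_fintype] at hlt
    exact_mod_cast hlt
  have hNN'' : N' < N + N := by
    rw [mk_fintype, mk_fintype] at hlt'
    exact_mod_cast hlt'
  let n : PUnit.{u + 1} → ℕ := fun _ => 2 ^ (N' - N)
  obtain ⟨A, cA, nA, φ, hφc, hφ⟩ := exists_model (n := n) (fun _ => by positivity)
  obtain ⟨B, cB, nB, ψ, hψc, hψ⟩ := exists_model (n := fun _ : K => 2) (fun _ => by norm_num)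
  obtain ⟨B', cB', nB', ψ', hψ'c, hψ'⟩ := exists_model (n := fun _ : K' => 2)
    (fun _ => by norm_num)
  obtain ⟨E, cE, nE, χ, hχc, hχ⟩ := exists_model
    (n := Sum.elim n (fun _ : K => 2)) (by rintro (i | k) <;> simp [n])
  obtain ⟨α, -, hα⟩ := exists_embedding hφc hφ (A := E) (ψ := fun i => χ (Sum.inl i))
    (fun i j hij a b => hχc _ _ (fun h => hij (Sum.inl_injective h)) a b)
  obtain ⟨β, -, hβ⟩ := exists_embedding hψc hψ (A := E) (ψ := fun i => χ (Sum.inr i))
    (fun i j hij a b => hχc _ _ (fun h => hij (Sum.inr_injective h)) a b)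
  refine ⟨PUnit, n, A, B, B', E, cA, cB, cB', cE, nA, nB, nB', nE, φ, ψ, ψ', α, β,
    fun _ => by positivity, hφc, hφ, hψc, hψ, hψ'c, hψ', ?_, ?_, ?_, ?_⟩
  · apply commute_of_dense hφ hψ α β
    intro i M k N
    rw [hα, hβ]
    exact hχc _ _ (by simp) _ _
  · refine hχ.mono ?_
    have : alg χ Set.univ ≤ StarAlgebra.adjoin ℂ (Set.range α ∪ Set.range β) := by
      rw [alg_le_iff]
      rintro (i | k) - _ ⟨M, rfl⟩
      · apply StarAlgebra.subset_adjoin
        exact Or.inl ⟨φ i M, hα i M⟩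
      · apply StarAlgebra.subset_adjoin
        exact Or.inr ⟨ψ k M, hβ k M⟩
    exact this
  · refine exists_embedding_of_dvd hψ'c hψ' hχc Finset.univ ?_
    rw [Fintype.prod_sum_type]
    simp only [Sum.elim_inl, Sum.elim_inr, Finset.prod_const, Finset.card_univ, n]
    rw [← hN, ← hN', Fintype.card_punit, pow_one, ← pow_add, Nat.sub_add_cancel hNN'.le]
  · rintro ⟨g, -⟩
    have hdim : dim (fun _ : K => 2) Finset.univ = 2 ^ N := by
      unfold dim
      rw [Finset.prod_const, Finset.card_univ]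
    have hne : NeZero (dim (fun _ : K => 2) Finset.univ) := ⟨by rw [hdim]; positivity⟩
    obtain ⟨F, hF⟩ := exists_dvd hφc hφ (g.comp (hom hψc Finset.univ))
    rw [hdim] at hF
    have h1 : 2 ^ N ∣ 2 ^ (N' - N) := by
      have h2 : ∏ j ∈ F, n j ∣ ∏ j ∈ Finset.univ, n j :=
        Finset.prod_dvd_prod_of_subset _ _ _ (Finset.subset_univ F)
      have h3 := hF.trans h2
      simpa [n] using h3
    rw [Nat.pow_dvd_pow_iff_le_right (by norm_num)] at h1
    omega

end Pool.Agent.Helper46_UHF
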