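import Pool.Agent.Helper46_UHF.Family

/-! Comparison of the conditional expectations attached to several copies. -/

set_option autoImplicit false

open Matrix

namespace Pool.Agent.Helper46_UHF

variable {X : Type*} [Fintype X] [DecidableEq X] {Y : Type*} [Fintype Y] [DecidableEq Y]
  {Z : Type*} [Fintype Z] [DecidableEq Z] {T : Type*} [CStarAlgebra T]

lemma S_mem (Ψ : Matrix X X ℂ →⋆ₐ[ℂ] T) {A : StarSubalgebra ℂ T} (h : Ψ.range ≤ A) (p q : X)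
    {z : T} (hz : z ∈ A) : S Ψ p q z ∈ A := by
  rw [S_apply]
  exact sum_mem (fun m _ => mul_mem (mul_mem (h (mu_mem_range Ψ _ _)) hz) (h (mu_mem_range Ψ _ _)))

lemma E_mem (Ψ : Matrix X X ℂ →⋆ₐ[ℂ] T) {A : StarSubalgebra ℂ T} (h : Ψ.range ≤ A)
    {z : T} (hz : z ∈ A) : E Ψ z ∈ A := by
  rw [E_apply]
  exact A.smul_mem (sum_mem (fun q _ => S_mem Ψ h q q hz)) _

/-- If the range of `Ψ₁` is contained in that of `Ψ₂`, there is a compatible inclusion. -/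
lemma exists_incl [Nontrivial T] (Ψ₁ : Matrix X X ℂ →⋆ₐ[ℂ] T) (Ψ₂ : Matrix Y Y ℂ →⋆ₐ[ℂ] T)
    (h : Ψ₁.range ≤ Ψ₂.range) : ∃ u : Matrix X X ℂ →⋆ₐ[ℂ] Matrix Y Y ℂ, ∀ M, Ψ₂ (u M) = Ψ₁ M := by
  have hinj := injective_of_nontrivial Ψ₂
  have h1 : ∀ M, ∃ N, Ψ₂ N = Ψ₁ M := fun M => h ⟨M, rfl⟩
  choose f hf using h1
  refine ⟨{ toFun := f, map_one' := ?_, map_mul' := ?_, map_zero' := ?_, map_add' := ?_,
            commutes' := ?_, map_star' := ?_ }, hf⟩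
  · apply hinj; rw [hf, map_one, map_one]
  · intro M N; apply hinj; rw [hf, map_mul, map_mul, hf, hf]
  · apply hinj; rw [hf, map_zero, map_zero]
  · intro M N; apply hinj; rw [hf, map_add, map_add, hf, hf]
  · intro c
    apply hinj
    rw [hf, AlgHomClass.commutes, AlgHomClass.commutes]
  · intro M; apply hinj
    rw [hf, map_star, map_star, hf]

lemma E_E_of_le (Ψ₁ : Matrix X X ℂ →⋆ₐ[ℂ] T) (Ψ₂ : Matrix Y Y ℂ →⋆ₐ[ℂ] T) [Nonempty X]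
    (h : Ψ₁.range ≤ Ψ₂.range) (z : T) : E Ψ₂ (E Ψ₁ z) = E Ψ₂ z := by
  have key : ∀ p q, E Ψ₂ (mu Ψ₁ p q * z * mu Ψ₁ q p) = E Ψ₂ (z * mu Ψ₁ q q) := by
    intro p q
    obtain ⟨M, hM⟩ := h (mu_mem_range Ψ₁ p q)
    have hM' : Ψ₂ M = mu Ψ₁ p q := hM
    rw [← hM', mul_assoc, E_tracial, hM', mul_assoc, mu_mul_same]
  have e1 : E Ψ₁ z = ((Fintype.card X : ℂ)⁻¹) • ∑ q, ∑ m, mu Ψ₁ m q * z * mu Ψ₁ q m := by
    rw [E_apply]; rfl
  rw [e1, map_smul, map_sum]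
  have e2 : ∀ q, E Ψ₂ (∑ m, mu Ψ₁ m q * z * mu Ψ₁ q m) =
      (Fintype.card X : ℂ) • E Ψ₂ (z * mu Ψ₁ q q) := by
    intro q
    rw [map_sum]
    simp only [key]
    rw [Finset.sum_const, Finset.card_univ, ← Nat.cast_smul_eq_nsmul ℂ]
  simp only [e2]
  rw [← Finset.smul_sum, smul_smul, inv_mul_cancel₀ (by simp), one_smul, ← map_sum,
    ← Finset.mul_sum, sum_mu, mul_one]

lemma E_commute_of_commute (Ψ₁ : Matrix X X ℂ →⋆ₐ[ℂ] T) {a w : T}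
    (ha : ∀ p q, Commute a (mu Ψ₁ p q)) (haw : Commute w a) : Commute (E Ψ₁ w) a := by
  rw [commute_iff_eq, ← E_mul_right Ψ₁ ha, ← E_mul_left Ψ₁ ha, haw.eq]

lemma E_eq_comp (Ψ₁ : Matrix X X ℂ →⋆ₐ[ℂ] T) (Ψ₂ : Matrix Y Y ℂ →⋆ₐ[ℂ] T)
    (Ψ : Matrix Z Z ℂ →⋆ₐ[ℂ] T) [Nonempty X] [Nonempty Y] [Nonempty Z]
    (hc : ∀ a b, Commute (Ψ₁ a) (Ψ₂ b)) (h : Ψ.range = Ψ₁.range ⊔ Ψ₂.range) (z : T) :
    E Ψ z = E Ψ₁ (E Ψ₂ z) := by
  have h1 : Ψ₁.range ≤ Ψ.range := by rw [h]; exact le_sup_left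
  have h2 : Ψ₂.range ≤ Ψ.range := by rw [h]; exact le_sup_right
  have e1 : E Ψ (E Ψ₁ (E Ψ₂ z)) = E Ψ z := by
    rw [E_E_of_le Ψ₁ Ψ h1, E_E_of_le Ψ₂ Ψ h2]
  rw [← e1]
  apply E_of_commute
  -- commutes with the range of Ψ
  set w := E Ψ₁ (E Ψ₂ z) with hw
  have c1 : ∀ M, Commute w (Ψ₁ M) := fun M => E_commute Ψ₁ _ M
  have c2 : ∀ M, Commute w (Ψ₂ M) := by
    intro M
    apply E_commute_of_commute
    · intro p q; exact (hc _ _).symm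
    · exact E_commute Ψ₂ _ M
  have c3 : Ψ.range ≤ StarSubalgebra.centralizer ℂ {w} := by
    rw [h]
    apply sup_le
    · rintro _ ⟨M, rfl⟩
      rw [StarSubalgebra.mem_centralizer_iff]
      rintro g hg
      rw [Set.mem_singleton_iff] at hg
      subst hg
      refine ⟨(c1 M).eq, ?_⟩
      have := congrArg star (c1 (star M)).eq
      simp only [star_mul, map_star, star_star] at this
      exact this.symm
    · rintro _ ⟨M, rfl⟩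
      rw [StarSubalgebra.mem_centralizer_iff]
      rintro g hg
      rw [Set.mem_singleton_iff] at hg
      subst hg
      refine ⟨(c2 M).eq, ?_⟩
      have := congrArg star (c2 (star M)).eq
      simp only [star_mul, map_star, star_star] at this
      exact this.symm
  intro p q
  have := c3 (mu_mem_range Ψ p q)
  rw [StarSubalgebra.mem_centralizer_iff] at this
  exact (this w rfl).1

/-- `E` for one copy commutes with `S` for a commuting copy. -/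
lemma E_S_comm (Ψ₁ : Matrix X X ℂ →⋆ₐ[ℂ] T) (Ψ₂ : Matrix Y Y ℂ →⋆ₐ[ℂ] T)
    (hc : ∀ a b, Commute (Ψ₁ a) (Ψ₂ b)) (k l : X) (z : T) :
    E Ψ₂ (S Ψ₁ k l z) = S Ψ₁ k l (E Ψ₂ z) := by
  rw [S_apply, S_apply, map_sum]
  apply Finset.sum_congr rfl; intro m _
  rw [E_mul_right Ψ₂ (a := mu Ψ₁ l m) (fun p q => hc _ _),
    E_mul_left Ψ₂ (a := mu Ψ₁ m k) (fun p q => hc _ _)]

lemma E_S_eq (Ψ₁ : Matrix X X ℂ →⋆ₐ[ℂ] T) (Ψ₂ : Matrix Y Y ℂ →⋆ₐ[ℂ] T)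
    (Ψ : Matrix Z Z ℂ →⋆ₐ[ℂ] T) [Nonempty X] [Nonempty Y] [Nonempty Z]
    (hc : ∀ a b, Commute (Ψ₁ a) (Ψ₂ b)) (h : Ψ.range = Ψ₁.range ⊔ Ψ₂.range) (k l : X) (z : T) :
    E Ψ (S Ψ₁ k l z) = S Ψ₁ k l (E Ψ₂ z) := by
  rw [E_eq_comp Ψ₁ Ψ₂ Ψ hc h, E_S_comm Ψ₁ Ψ₂ hc]
  exact E_of_commute Ψ₁ (fun p q => S_commute_mu Ψ₁ _ _ _ _ _)

/-- the element with coefficient matrix `b` relative to the copy `Ψ` -/
noncomputable def val (b : X → X → T) (Ψ : Matrix X X ℂ →⋆ₐ[ℂ] T) : T :=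
  ∑ p, ∑ q, b p q * mu Ψ p q

/-- the coefficient functional of a slice followed by the trace -/
noncomputable def cf (u : Matrix X X ℂ →⋆ₐ[ℂ] Matrix Y Y ℂ) (k l : X) (M : Matrix Y Y ℂ) : ℂ :=
  (Fintype.card Y : ℂ)⁻¹ *
    (∑ m, u (Matrix.single m k 1) * M * u (Matrix.single l m 1)).trace

lemma E_S_val (Ψ : Matrix Y Y ℂ →⋆ₐ[ℂ] T) (Ψ₀ : Matrix X X ℂ →⋆ₐ[ℂ] T)
    (u : Matrix X X ℂ →⋆ₐ[ℂ] Matrix Y Y ℂ) (hu : ∀ M, Ψ (u M) = Ψ₀ M) (b : Y → Y → T)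
    (hb : ∀ p q M, Commute (b p q) (Ψ M)) (k l : X) :
    E Ψ (S Ψ₀ k l (val b Ψ)) = ∑ p, ∑ q, cf u k l (Matrix.single p q 1) • b p q := by
  have h1 : ∀ p q, E Ψ (S Ψ₀ k l (b p q * mu Ψ p q)) = cf u k l (Matrix.single p q 1) • b p q := by
    intro p q
    rw [S_mul_left Ψ₀ (fun r s => by
      unfold mu; rw [← hu]; exact hb p q _)]
    rw [E_mul_left Ψ (fun r s => hb p q _)]
    have e1 : S Ψ₀ k l (mu Ψ p q) =
        Ψ (∑ m, u (Matrix.single m k 1) * Matrix.single p q 1 * u (Matrix.single l m 1)) := by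
      rw [S_apply, map_sum]
      apply Finset.sum_congr rfl; intro m _
      rw [map_mul, map_mul, hu, hu]
      rfl
    rw [e1, E_map, mul_smul_comm, mul_one]
    rfl
  unfold val
  rw [map_sum, map_sum]
  apply Finset.sum_congr rfl; intro p _
  rw [map_sum, map_sum]
  apply Finset.sum_congr rfl; intro q _
  exact h1 p q

end Pool.Agent.Helper46_UHF
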