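import Pool.Agent.Helper46_UHF.Approx
import Pool.Agent.Helper46_UHF.Expect

/-! The character argument: if the slices of an element close to the corner matrix unit of a copy of
`M_2` commute, then the dimension of the slicing copy is even. -/

set_option autoImplicit false

open Matrix WeakDual
open scoped Matrix.Norms.L2Operator

namespace Pool.Agent.Helper46_UHF

variable {T : Type*} [CStarAlgebra T]

/-- the double commutant of a set -/
def dc (s : Set T) : StarSubalgebra ℂ T :=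
  StarSubalgebra.centralizer ℂ (StarSubalgebra.centralizer ℂ s : Set T)

lemma dc_closed (s : Set T) : IsClosed (dc s : Set T) := by
  unfold dc
  rw [StarSubalgebra.coe_centralizer]
  exact Set.isClosed_centralizer _

lemma subset_dc (s : Set T) : s ⊆ dc s := by
  intro x hx
  change x ∈ dc s
  unfold dc
  rw [StarSubalgebra.mem_centralizer_iff]
  intro g hg
  have h := (StarSubalgebra.mem_centralizer_iff ℂ).1 hg
  have h' := (StarSubalgebra.mem_centralizer_iff ℂ).1 (star_mem (s := StarSubalgebra.centralizer ℂ s) hg)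
  exact ⟨(h x hx).1.symm, (h' x hx).1.symm⟩

lemma dc_comm (s : Set T) (h1 : ∀ x ∈ s, ∀ y ∈ s, x * y = y * x)
    (h2 : ∀ x ∈ s, ∀ y ∈ s, x * star y = star y * x) {x y : T} (hx : x ∈ dc s) (hy : y ∈ dc s) :
    x * y = y * x := by
  have hs : s ⊆ (StarSubalgebra.centralizer ℂ s : Set T) := by
    intro z hz
    change z ∈ StarSubalgebra.centralizer ℂ s
    rw [StarSubalgebra.mem_centralizer_iff]
    intro g hg
    exact ⟨h1 g hg z hz, (h2 z hz g hg).symm⟩
  have hy2 : y ∈ StarSubalgebra.centralizer ℂ s := StarSubalgebra.centralizer_le ℂ _ _ hs hy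
  exact (((StarSubalgebra.mem_centralizer_iff ℂ).1 hx) y hy2).1.symm

lemma dc_commute_of_commute (s : Set T) {a : T} (h1 : ∀ x ∈ s, Commute x a)
    (h2 : ∀ x ∈ s, Commute (star x) a) {x : T} (hx : x ∈ dc s) : Commute x a := by
  have ha : a ∈ StarSubalgebra.centralizer ℂ s := by
    rw [StarSubalgebra.mem_centralizer_iff]
    exact fun g hg => ⟨(h1 g hg).eq, (h2 g hg).eq⟩
  exact (((StarSubalgebra.mem_centralizer_iff ℂ).1 hx) a ha).1.symm

lemma exists_character (s : Set T) [Nontrivial T] (h1 : ∀ x ∈ s, ∀ y ∈ s, x * y = y * x)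
    (h2 : ∀ x ∈ s, ∀ y ∈ s, x * star y = star y * x) :
    Nonempty ((dc s) →⋆ₐ[ℂ] ℂ) := by
  let _ : CStarAlgebra (dc s) := StarSubalgebra.cstarAlgebra (dc s) (h_closed := dc_closed s)
  let _ : NormedCommRing (dc s) :=
    { (inferInstance : NormedRing (dc s)) with
      mul_comm := fun x y => Subtype.ext (dc_comm s h1 h2 x.2 y.2) }
  have hne : Nonempty (characterSpace ℂ (dc s)) := inferInstance
  obtain ⟨χ⟩ := hne
  let f : (dc s) →ₐ[ℂ] ℂ := CharacterSpace.toAlgHom χ
  refine ⟨{ f with map_star' := ?_ }⟩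
  intro x
  exact map_star f x

variable {X : Type*} [Fintype X] [DecidableEq X]

lemma continuous_S (Ψ : Matrix X X ℂ →⋆ₐ[ℂ] T) (p q : X) : Continuous (S Ψ p q) := by
  have : (S Ψ p q : T → T) = fun z => ∑ m, mu Ψ m p * z * mu Ψ q m := rfl
  rw [this]
  fun_prop

/-- the closed star subalgebra of elements all of whose slices lie in `A` -/
noncomputable def sliceAlg (Ψ : Matrix X X ℂ →⋆ₐ[ℂ] T) (A : StarSubalgebra ℂ T) :
    StarSubalgebra ℂ T where
  carrier := {z | ∀ k l, S Ψ k l z ∈ A}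
  mul_mem' := by
    intro a b ha hb p q
    rw [S_mul]
    exact sum_mem (fun m _ => mul_mem (ha _ _) (hb _ _))
  one_mem' := by
    intro p q
    rw [S_one]
    split_ifs
    · exact one_mem _
    · exact zero_mem _
  add_mem' := by
    intro a b ha hb p q
    rw [map_add]
    exact add_mem (ha _ _) (hb _ _)
  zero_mem' := by
    intro p q
    rw [map_zero]; exact zero_mem _
  algebraMap_mem' := by
    intro c p q
    rw [Algebra.algebraMap_eq_smul_one, map_smul, S_one]
    apply StarSubalgebra.smul_mem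
    split_ifs
    · exact one_mem _
    · exact zero_mem _
  star_mem' := by
    intro a ha p q
    rw [← star_S]
    exact star_mem (ha _ _)

lemma mem_sliceAlg (Ψ : Matrix X X ℂ →⋆ₐ[ℂ] T) (A : StarSubalgebra ℂ T) (z : T) :
    z ∈ sliceAlg Ψ A ↔ ∀ k l, S Ψ k l z ∈ A := Iff.rfl

lemma sliceAlg_closed (Ψ : Matrix X X ℂ →⋆ₐ[ℂ] T) (A : StarSubalgebra ℂ T)
    (hA : IsClosed (A : Set T)) : IsClosed (sliceAlg Ψ A : Set T) := by
  have : (sliceAlg Ψ A : Set T) = ⋂ k, ⋂ l, (S Ψ k l) ⁻¹' (A : Set T) := by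
    ext z
    simp only [Set.mem_iInter, Set.mem_preimage, SetLike.mem_coe]
    rfl
  rw [this]
  exact isClosed_iInter fun k => isClosed_iInter fun l => hA.preimage (continuous_S Ψ k l)

/-- evaluation of slices at a character -/
noncomputable def evalHom (Ψ : Matrix X X ℂ →⋆ₐ[ℂ] T) (A : StarSubalgebra ℂ T) (χ : A →⋆ₐ[ℂ] ℂ) :
    sliceAlg Ψ A →⋆ₐ[ℂ] Matrix X X ℂ where
  toFun z := Matrix.of fun k l => χ ⟨S Ψ k l z.1, z.2 k l⟩
  map_one' := by
    ext k l
    simp only [Matrix.of_apply]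
    by_cases h : k = l
    · subst h
      have : (⟨S Ψ k k (1 : sliceAlg Ψ A).1, (1 : sliceAlg Ψ A).2 k k⟩ : A) = 1 := by
        apply Subtype.ext
        change S Ψ k k 1 = 1
        rw [S_one, if_pos rfl]
      rw [this, map_one, Matrix.one_apply_eq]
    · have : (⟨S Ψ k l (1 : sliceAlg Ψ A).1, (1 : sliceAlg Ψ A).2 k l⟩ : A) = 0 := by
        apply Subtype.ext
        change S Ψ k l 1 = 0
        rw [S_one, if_neg h]
      rw [this, map_zero, Matrix.one_apply_ne h]
  map_mul' y z := by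
    ext k l
    rw [Matrix.mul_apply]
    simp only [Matrix.of_apply]
    have : (⟨S Ψ k l (y * z : sliceAlg Ψ A).1, (y * z : sliceAlg Ψ A).2 k l⟩ : A) =
        ∑ m, ⟨S Ψ k m y.1, y.2 k m⟩ * ⟨S Ψ m l z.1, z.2 m l⟩ := by
      apply Subtype.ext
      change S Ψ k l (y.1 * z.1) = _
      rw [S_mul]
      simp
    rw [this, map_sum]
    apply Finset.sum_congr rfl; intro m _
    rw [map_mul]
  map_zero' := by
    ext k l
    simp only [Matrix.of_apply, Matrix.zero_apply]
    have : (⟨S Ψ k l (0 : sliceAlg Ψ A).1, (0 : sliceAlg Ψ A).2 k l⟩ : A) = 0 := by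
      apply Subtype.ext
      change S Ψ k l 0 = 0
      rw [map_zero]
    rw [this, map_zero]
  map_add' y z := by
    ext k l
    rw [Matrix.add_apply]
    simp only [Matrix.of_apply]
    rw [← map_add]
    congr 1
    apply Subtype.ext
    change S Ψ k l (y.1 + z.1) = _
    rw [map_add]; rfl
  commutes' c := by
    ext k l
    rw [Matrix.algebraMap_matrix_apply]
    simp only [Matrix.of_apply]
    have : (⟨S Ψ k l (algebraMap ℂ (sliceAlg Ψ A) c).1, (algebraMap ℂ (sliceAlg Ψ A) c).2 k l⟩ : A)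
        = c • (if k = l then 1 else 0) := by
      apply Subtype.ext
      change S Ψ k l (algebraMap ℂ T c) = _
      rw [Algebra.algebraMap_eq_smul_one, map_smul, S_one]
      split_ifs <;> simp
    rw [this, map_smul]
    split_ifs <;> simp
  map_star' z := by
    ext k l
    simp only [Matrix.of_apply, Matrix.star_apply]
    rw [← map_star]
    congr 1
    apply Subtype.ext
    change S Ψ k l (star z.1) = star (S Ψ l k z.1)
    rw [star_S]

/-- If all slices of `xh` commute with each other and their adjoints, and `xh` is close to the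
off-diagonal matrix unit of a unital copy of `M_2`, then `card X` is even. -/
lemma even_card_of_commuting_slices [Nontrivial T] (Ψ : Matrix X X ℂ →⋆ₐ[ℂ] T)
    (ψ : Matrix (Fin 2) (Fin 2) ℂ →⋆ₐ[ℂ] T) (xh : T)
    (h1 : ∀ k l k' l', S Ψ k l xh * S Ψ k' l' xh = S Ψ k' l' xh * S Ψ k l xh)
    (h2 : ∀ k l k' l', S Ψ k l xh * star (S Ψ k' l' xh) = star (S Ψ k' l' xh) * S Ψ k l xh)
    (hx : ‖xh - mu ψ 0 1‖ ≤ 1 / 2400) : 2 ∣ Fintype.card X := by
  set s : Set T := Set.range (fun kl : X × X => S Ψ kl.1 kl.2 xh) with hs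
  have c1 : ∀ x ∈ s, ∀ y ∈ s, x * y = y * x := by
    rintro _ ⟨⟨k, l⟩, rfl⟩ _ ⟨⟨k', l'⟩, rfl⟩; exact h1 _ _ _ _
  have c2 : ∀ x ∈ s, ∀ y ∈ s, x * star y = star y * x := by
    rintro _ ⟨⟨k, l⟩, rfl⟩ _ ⟨⟨k', l'⟩, rfl⟩; exact h2 _ _ _ _
  obtain ⟨χ⟩ := exists_character s c1 c2
  let _ : CStarAlgebra (sliceAlg Ψ (dc s)) :=
    StarSubalgebra.cstarAlgebra _ (h_closed := sliceAlg_closed Ψ _ (dc_closed s))
  have hmem : xh ∈ sliceAlg Ψ (dc s) := by
    intro k l
    exact subset_dc s ⟨(k, l), rfl⟩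
  let x' : sliceAlg Ψ (dc s) := ⟨xh, hmem⟩
  let w : Fin 2 → sliceAlg Ψ (dc s) := ![x' * star x', x']
  have hx2 : ‖star xh - mu ψ 1 0‖ ≤ 1 / 2400 := by
    rw [← star_mu, ← star_sub, norm_star]; exact hx
  refine dvd_of_approx_hom ψ (sliceAlg Ψ (dc s)).subtype Subtype.val_injective
    (evalHom Ψ (dc s) χ) w (1 / 800) (by norm_num) (by norm_num) ?_
  intro i
  fin_cases i
  · have := norm_mul_star_sub_le (by norm_num) (norm_mu_le ψ 0 1) (norm_mu_le ψ 1 0) hx hx2
      (by norm_num)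
    rw [mu_mul_same] at this
    change ‖xh * star xh - mu ψ 0 0‖ ≤ _
    linarith
  · change ‖xh - mu ψ 0 1‖ ≤ _
    linarith

end Pool.Agent.Helper46_UHF
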