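import Mathlib

/-! A closing-off lemma. -/

set_option autoImplicit false

open Cardinal

universe u

namespace Pool.Agent.Helper46_UHF

variable {J K' : Type u}

/-- two realizations with different indices and disjoint supports -/
def compat (x y : K' × Finset J) : Prop := x.1 ≠ y.1 ∧ Disjoint x.2 y.2

lemma compat_symm {x y : K' × Finset J} (h : compat x y) : compat y x := ⟨h.1.symm, h.2.symm⟩

lemma exists_max (S : Set (K' × Finset J)) :
    ∃ M ⊆ S, M.Pairwise compat ∧ ∀ x ∈ S, x ∉ M → ∃ y ∈ M, ¬ compat x y := by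
  obtain ⟨M, hM⟩ := zorn_subset {M : Set (K' × Finset J) | M ⊆ S ∧ M.Pairwise compat} (by
    intro c hc hchain
    refine ⟨⋃₀ c, ⟨?_, ?_⟩, fun s hs => Set.subset_sUnion_of_mem hs⟩
    · exact Set.sUnion_subset (fun s hs => (hc hs).1)
    · rintro x ⟨s, hs, hxs⟩ y ⟨t, ht, hyt⟩ hxy
      rcases hchain.total hs ht with h | h
      · exact (hc ht).2 (h hxs) hyt hxy
      · exact (hc hs).2 hxs (h hyt) hxy)
  have hM1 : M ⊆ S ∧ M.Pairwise compat := hM.prop
  refine ⟨M, hM1.1, hM1.2, ?_⟩
  intro x hx hxM
  by_contra hcon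
  push Not at hcon
  have h2 : insert x M ⊆ S ∧ (insert x M).Pairwise compat := by
    refine ⟨Set.insert_subset hx hM1.1, ?_⟩
    rw [Set.pairwise_insert]
    refine ⟨hM1.2, fun y hy _ => ⟨hcon y hy, compat_symm (hcon y hy)⟩⟩
  have := hM.le_of_ge h2 (Set.subset_insert x M)
  exact hxM (this (Set.mem_insert x M))

lemma exists_far {M : Set (K' × Finset J)} (hM : M.Pairwise compat) (hinf : M.Infinite)
    (i : K') (P : Finset J) : ∃ x ∈ M, x.1 ≠ i ∧ Disjoint x.2 P := by
  by_contra hcon
  push Not at hcon
  apply hinf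
  have h1 : M ⊆ {x ∈ M | x.1 = i} ∪ ⋃ p ∈ P, {x ∈ M | p ∈ x.2} := by
    intro x hx
    by_cases hxi : x.1 = i
    · exact Or.inl ⟨hx, hxi⟩
    · right
      have := hcon x hx hxi
      rw [Finset.not_disjoint_iff] at this
      obtain ⟨p, hp1, hp2⟩ := this
      simp only [Set.mem_iUnion]
      exact ⟨p, hp2, hx, hp1⟩
  apply Set.Finite.subset _ h1
  apply Set.Finite.union
  · apply Set.Subsingleton.finite
    rintro x ⟨hx, hxi⟩ y ⟨hy, hyi⟩
    by_contra hne
    exact (hM hx hy hne).1 (hxi.trans hyi.symm)
  · apply Set.Finite.biUnion P.finite_toSet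
    intro p _
    apply Set.Subsingleton.finite
    rintro x ⟨hx, hxp⟩ y ⟨hy, hyp⟩
    by_contra hne
    exact Finset.disjoint_left.mp (hM hx hy hne).2 hxp hyp

theorem comb {C : Type} [Countable C] (J0 : Set J) (lam : Cardinal.{u}) (hlam : ℵ₀ ≤ lam)
    (hJ0 : #J0 ≤ lam) (hK' : lam < #K') (Rel : C → Finset J → Set (K' × Finset J)) :
    ∃ (K : Set J) (i : K'), J0 ⊆ K ∧ ∀ (c : C) (R : Finset J), (R : Set J) ⊆ K →
      ∀ Q : Finset J, Disjoint (Q : Set J) K → (i, Q) ∈ Rel c R →
      ∀ P : Finset J, ∃ x ∈ Rel c R, x.1 ≠ i ∧ Disjoint x.2 P := by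
  classical
  choose M hM1 hM2 hM3 using fun (c : C) (R : Finset J) => exists_max (Rel c R)
  -- finite closure sets
  set clo : C → Finset J → Set J := fun c R =>
    if (M c R).Finite then ⋃ x ∈ M c R, (x.2 : Set J) else ∅ with hclo
  set exc : C → Finset J → Set K' := fun c R =>
    if (M c R).Finite then (fun x => x.1) '' M c R else ∅ with hexc
  have hclo_fin : ∀ c R, (clo c R).Countable := by
    intro c R
    simp only [hclo]
    split_ifs with h
    · exact (h.biUnion (fun x _ => x.2.finite_toSet)).countable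
    · exact Set.countable_empty
  have hexc_fin : ∀ c R, (exc c R).Countable := by
    intro c R
    simp only [hexc]
    split_ifs with h
    · exact (h.image _).countable
    · exact Set.countable_empty
  -- cardinality of index sets
  have hidx : ∀ K : Set J, #K ≤ lam → #(ULift.{u} C × Finset K) ≤ lam := by
    intro K hK
    rw [Cardinal.mk_prod, Cardinal.lift_id, Cardinal.lift_id]
    have h1 : #(ULift.{u} C) ≤ lam := (Cardinal.mk_le_aleph0).trans hlam
    have h2 : #(Finset K) ≤ lam := by
      rcases finite_or_infinite K with hf | hf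
      · exact (Cardinal.mk_le_aleph0).trans hlam
      · rw [Cardinal.mk_finset_of_infinite]; exact hK
    calc #(ULift.{u} C) * #(Finset K) ≤ lam * lam := mul_le_mul' h1 h2
      _ = lam := Cardinal.mul_eq_self hlam
  have hcardU : ∀ {α β : Type u} (f : α → Set β), (∀ a, (f a).Countable) → #α ≤ lam →
      #(⋃ a, f a : Set β) ≤ lam := by
    intro α β f hf hα
    calc #(⋃ a, f a : Set β) ≤ Cardinal.sum (fun a => #(f a)) := Cardinal.mk_iUnion_le_sum_mk
      _ ≤ Cardinal.sum (fun _ : α => ℵ₀) := by
          apply Cardinal.sum_le_sum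
          intro a
          exact Cardinal.mk_le_aleph0_iff.mpr (hf a).to_subtype
      _ = #α * ℵ₀ := by simp
      _ ≤ lam * lam := mul_le_mul' hα hlam
      _ = lam := Cardinal.mul_eq_self hlam
  set step : Set J → Set J := fun K =>
    K ∪ ⋃ x : ULift.{u} C × Finset K, clo x.1.down (x.2.map (Function.Embedding.subtype _))
    with hstep
  have hstep_card : ∀ K : Set J, #K ≤ lam → #(step K) ≤ lam := by
    intro K hK
    refine (Cardinal.mk_union_le _ _).trans ?_
    calc _ ≤ lam + lam := add_le_add hK (hcardU _ (fun x => hclo_fin _ _) (hidx K hK))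
      _ = lam := Cardinal.add_eq_self hlam
  set Kn : ℕ → Set J := fun n => step^[n] J0 with hKn
  have hKn_card : ∀ n, #(Kn n) ≤ lam := by
    intro n
    induction n with
    | zero => exact hJ0
    | succ n ih =>
      simp only [hKn, Function.iterate_succ_apply']
      exact hstep_card _ ih
  have hKn_step : ∀ n, Kn (n + 1) = step (Kn n) := by
    intro n; simp only [hKn, Function.iterate_succ_apply']
  have hKn_mono : Monotone Kn := by
    apply monotone_nat_of_le_succ
    intro n
    rw [hKn_step]
    exact Set.subset_union_left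
  set K : Set J := ⋃ n, Kn n with hK
  have hKcard : #K ≤ lam := by
    have h1 : #(⋃ n : ULift.{u} ℕ, Kn n.down : Set J) ≤ lam := by
      calc #(⋃ n : ULift.{u} ℕ, Kn n.down : Set J)
          ≤ Cardinal.sum (fun n : ULift.{u} ℕ => #(Kn n.down)) := Cardinal.mk_iUnion_le_sum_mk
        _ ≤ Cardinal.sum (fun _ : ULift.{u} ℕ => lam) :=
            Cardinal.sum_le_sum _ _ (fun n => hKn_card _)
        _ = #(ULift.{u} ℕ) * lam := by simp
        _ ≤ lam * lam := mul_le_mul' (Cardinal.mk_le_aleph0.trans hlam) le_rfl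
        _ = lam := Cardinal.mul_eq_self hlam
    have h2 : K = ⋃ n : ULift.{u} ℕ, Kn n.down := by
      rw [hK]
      ext x
      simp only [Set.mem_iUnion, ULift.exists]
    rw [h2]; exact h1
  have hfin : ∀ R : Finset J, (R : Set J) ⊆ K → ∃ n, (R : Set J) ⊆ Kn n := by
    intro R
    induction R using Finset.induction with
    | empty => intro _; exact ⟨0, by simp⟩
    | insert a R _ ih =>
      intro h
      rw [Finset.coe_insert, Set.insert_subset_iff] at h
      obtain ⟨n, hn⟩ := ih h.2
      obtain ⟨m, hm⟩ := Set.mem_iUnion.mp h.1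
      refine ⟨max n m, ?_⟩
      rw [Finset.coe_insert, Set.insert_subset_iff]
      exact ⟨hKn_mono (le_max_right _ _) hm, hn.trans (hKn_mono (le_max_left _ _))⟩
  have hclosed : ∀ c (R : Finset J), (R : Set J) ⊆ K → clo c R ⊆ K := by
    intro c R hR
    obtain ⟨n, hn⟩ := hfin R hR
    have h1 : clo c R ⊆ Kn (n + 1) := by
      rw [hKn_step]
      apply Set.subset_union_of_subset_right
      let R' : Finset (Kn n) := R.subtype (fun x => x ∈ Kn n)
      have hR' : R'.map (Function.Embedding.subtype _) = R :=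
        Finset.subtype_map_of_mem (fun x hx => hn hx)
      refine Set.subset_iUnion_of_subset (ULift.up c, R') ?_
      simp only [hR']
      exact subset_rfl
    exact h1.trans (Set.subset_iUnion Kn (n + 1))
  -- the exceptional indices
  set Ex : Set K' := ⋃ x : ULift.{u} C × Finset K,
    exc x.1.down (x.2.map (Function.Embedding.subtype _)) with hEx
  have hExcard : #Ex ≤ lam := hcardU _ (fun x => hexc_fin _ _) (hidx K hKcard)
  have hex : ∃ i, i ∉ Ex := by
    by_contra hcon
    push Not at hcon
    have : Ex = Set.univ := Set.eq_univ_of_forall hcon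
    rw [this, Cardinal.mk_univ] at hExcard
    exact absurd hK' (not_lt.mpr hExcard)
  obtain ⟨i, hi⟩ := hex
  refine ⟨K, i, ?_, ?_⟩
  · exact Set.subset_iUnion Kn 0
  · intro c R hR Q hQ hiQ P
    have hexR : exc c R ⊆ Ex := by
      let R' : Finset K := R.subtype (fun x => x ∈ K)
      have hR' : R'.map (Function.Embedding.subtype _) = R :=
        Finset.subtype_map_of_mem (fun x hx => hR hx)
      refine Set.subset_iUnion_of_subset (ULift.up c, R') ?_
      simp only [hR']
      exact subset_rfl
    have hinf : (M c R).Infinite := by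
      intro hfinM
      have hiEx : i ∉ exc c R := fun h => hi (hexR h)
      simp only [hexc, if_pos hfinM] at hiEx
      have hnot : (i, Q) ∉ M c R := by
        intro h
        exact hiEx ⟨(i, Q), h, rfl⟩
      obtain ⟨y, hy, hcy⟩ := hM3 c R (i, Q) hiQ hnot
      apply hcy
      refine ⟨?_, ?_⟩
      · intro h
        exact hiEx ⟨y, hy, h.symm⟩
      · have hsub : (y.2 : Set J) ⊆ K := by
          refine Set.Subset.trans ?_ (hclosed c R hR)
          simp only [hclo, if_pos hfinM]
          intro j hj
          simp only [Set.mem_iUnion]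
          exact ⟨y, hy, hj⟩
        rw [Finset.disjoint_left]
        intro j hj1 hj2
        exact Set.disjoint_left.mp hQ hj1 (hsub hj2)
    obtain ⟨x, hx, hxi, hxP⟩ := exists_far (hM2 c R) hinf i P
    exact ⟨x, hM1 c R hx, hxi, hxP⟩

end Pool.Agent.Helper46_UHF
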