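import Pool.Agent.Helper46_UHF.Expect
import Pool.Agent.Helper46_UHF.Approx

/-! Finite supports, decompositions and countable dense sets of coefficients. -/

set_option autoImplicit false

open Matrix

namespace Pool.Agent.Helper46_UHF

variable {J : Type*} {n : J → ℕ} {T : Type*} [CStarAlgebra T]

section

variable {φ : ∀ j, Matrix (Fin (n j)) (Fin (n j)) ℂ →⋆ₐ[ℂ] T}

/-- the dimension of a finite subfamily -/
def dim (n : J → ℕ) (F : Finset J) : ℕ := ∏ j ∈ F, n j

/-- the copy of a matrix algebra generated by a finite subfamily -/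
noncomputable def hom (hφ : CommFam φ) (F : Finset J) :
    Matrix (Fin (dim n F)) (Fin (dim n F)) ℂ →⋆ₐ[ℂ] T :=
  (exists_hom hφ F).choose

lemma range_hom (hφ : CommFam φ) (F : Finset J) : (hom hφ F).range = alg φ (F : Set J) :=
  (exists_hom hφ F).choose_spec

lemma hom_mem (hφ : CommFam φ) (F : Finset J) (M) : hom hφ F M ∈ alg φ (F : Set J) := by
  rw [← range_hom hφ F]; exact ⟨M, rfl⟩

lemma exists_of_mem (hφ : CommFam φ) (F : Finset J) {y : T} (hy : y ∈ alg φ (F : Set J)) :
    ∃ M, hom hφ F M = y := by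
  rw [← range_hom hφ F] at hy; exact hy

lemma mu_hom_mem (hφ : CommFam φ) (F : Finset J) (p q) : mu (hom hφ F) p q ∈ alg φ (F : Set J) :=
  hom_mem hφ F _

lemma nonempty_dim [Nontrivial T] (hφ : CommFam φ) (F : Finset J) : Nonempty (Fin (dim n F)) :=
  nonempty_of_nontrivial (hom hφ F)

/-- slices of elements supported on `R ∪ Q` along `Q` are supported on `R` -/
lemma S_hom_mem (hφ : CommFam φ) {R : Set J} {Q : Finset J} (hRQ : Disjoint R (Q : Set J))
    {y : T} (hy : y ∈ alg φ (R ∪ (Q : Set J))) (p q : Fin (dim n Q)) :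
    S (hom hφ Q) p q y ∈ alg φ R := by
  let N : StarSubalgebra ℂ T :=
    { carrier := {y | ∀ p q, S (hom hφ Q) p q y ∈ alg φ R}
      mul_mem' := by
        intro a b ha hb p q
        rw [S_mul]
        exact sum_mem (fun m _ => mul_mem (ha _ _) (hb _ _))
      one_mem' := by
        intro p q
        rw [S_one]
        split_ifs
        · exact one_mem _
        · exact zero_mem _
      add_mem' := by
        intro a b ha hb p q
        rw [map_add]
        exact add_mem (ha _ _) (hb _ _)
      zero_mem' := by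
        intro p q
        rw [map_zero]; exact zero_mem _
      algebraMap_mem' := by
        intro c p q
        rw [Algebra.algebraMap_eq_smul_one, map_smul, S_one]
        apply StarSubalgebra.smul_mem
        split_ifs
        · exact one_mem _
        · exact zero_mem _
      star_mem' := by
        intro a ha p q
        rw [← star_S]
        exact star_mem (ha _ _) }
  have hN : alg φ (R ∪ (Q : Set J)) ≤ N := by
    rw [alg_le_iff]
    rintro j (hj | hj)
    · rintro _ ⟨M, rfl⟩ p q
      have hmem : φ j M ∈ alg φ R := range_le_alg φ hj ((mem_range_iff _ _).2 ⟨M, rfl⟩)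
      have := S_of_commute (hom hφ Q) (a := φ j M)
        (fun p q => alg_commute hφ hRQ hmem (mu_hom_mem hφ Q p q)) p q
      change S (hom hφ Q) p q (φ j M) ∈ _
      rw [this]
      split_ifs
      · exact hmem
      · exact zero_mem _
    · rintro _ ⟨M, rfl⟩ p q
      have hmem : φ j M ∈ alg φ (Q : Set J) :=
        range_le_alg φ hj ((mem_range_iff _ _).2 ⟨M, rfl⟩)
      obtain ⟨N, hN⟩ := exists_of_mem hφ Q hmem
      change S (hom hφ Q) p q (φ j M) ∈ _
      rw [← hN, S_map]
      exact StarSubalgebra.smul_mem _ (one_mem _) _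
  exact hN hy p q

/-- every element of the algebraic tensor product has finite support -/
lemma exists_finset (y : T) (hy : y ∈ alg φ Set.univ) : ∃ F : Finset J, y ∈ alg φ (F : Set J) := by
  classical
  unfold alg at hy
  refine StarAlgebra.adjoin_induction (p := fun y _ => ∃ F : Finset J, y ∈ alg φ (F : Set J))
    ?_ ?_ ?_ ?_ ?_ hy
  · intro x hx
    simp only [Set.mem_iUnion] at hx
    obtain ⟨j, -, M, rfl⟩ := hx
    exact ⟨{j}, range_le_alg φ (by simp) ((mem_range_iff _ _).2 ⟨M, rfl⟩)⟩
  · intro r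
    exact ⟨∅, (alg φ _).algebraMap_mem r⟩
  · rintro x y - - ⟨F, hF⟩ ⟨G, hG⟩
    refine ⟨F ∪ G, add_mem (alg_mono φ ?_ hF) (alg_mono φ ?_ hG)⟩ <;> simp
  · rintro x y - - ⟨F, hF⟩ ⟨G, hG⟩
    refine ⟨F ∪ G, mul_mem (alg_mono φ ?_ hF) (alg_mono φ ?_ hG)⟩ <;> simp
  · rintro x - ⟨F, hF⟩
    exact ⟨F, star_mem hF⟩

/-- a countable dense sequence in the algebra of a finite subfamily -/
lemma exists_dseq (hφ : CommFam φ) (R : Finset J) :
    ∃ d : ℕ → T, (∀ k, d k ∈ alg φ (R : Set J)) ∧
      ∀ y ∈ alg φ (R : Set J), ∀ ε > 0, ∃ k, ‖y - d k‖ < ε := by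
  let f : (Fin (dim n R) → Fin (dim n R) → ℂ) → T := fun M => ∑ p, ∑ q, M p q • mu (hom hφ R) p q
  have hf : Continuous f := by
    apply continuous_finsetSum; intro p _
    apply continuous_finsetSum; intro q _
    exact (continuous_apply_apply p q).smul continuous_const
  refine ⟨fun k => f (TopologicalSpace.denseSeq _ k), ?_, ?_⟩
  · intro k
    exact sum_mem (fun p _ => sum_mem (fun q _ => StarSubalgebra.smul_mem _
      (mu_hom_mem hφ R p q) _))
  · intro y hy ε hε
    obtain ⟨M, rfl⟩ := exists_of_mem hφ R hy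
    have h1 : hom hφ R M = f M := map_eq_sum _ M
    have h2 : IsOpen (f ⁻¹' (Metric.ball (f M) ε)) := Metric.isOpen_ball.preimage hf
    have h3 : (f ⁻¹' (Metric.ball (f M) ε)).Nonempty := ⟨M, Metric.mem_ball_self hε⟩
    obtain ⟨x, hx, k, hk⟩ := (TopologicalSpace.denseRange_denseSeq
      (Fin (dim n R) → Fin (dim n R) → ℂ)).inter_open_nonempty _ h2 h3
    refine ⟨k, ?_⟩
    rw [h1]
    simp only
    rw [hk]
    rw [Set.mem_preimage, Metric.mem_ball, dist_eq_norm, norm_sub_rev] at hx
    exact hx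

/-- the dense sequence -/
noncomputable def dseq (hφ : CommFam φ) (R : Finset J) : ℕ → T := (exists_dseq hφ R).choose

lemma dseq_mem (hφ : CommFam φ) (R : Finset J) (k : ℕ) : dseq hφ R k ∈ alg φ (R : Set J) :=
  (exists_dseq hφ R).choose_spec.1 k

lemma exists_dseq_near (hφ : CommFam φ) (R : Finset J) {y : T} (hy : y ∈ alg φ (R : Set J))
    {ε : ℝ} (hε : 0 < ε) : ∃ k, ‖y - dseq hφ R k‖ < ε :=
  (exists_dseq hφ R).choose_spec.2 y hy ε hε

/-- approximation of an element by one with coefficients in the dense sequences -/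
lemma exists_approx (hφ : CommFam φ) (hdense : Dense (alg φ Set.univ : Set T)) (K : Set J)
    [DecidablePred (· ∈ K)] [DecidableEq J] (x : T) {ε : ℝ} (hε : 0 < ε) (F₀ : Finset J) :
    ∃ F : Finset J, F₀ ⊆ F ∧ ∃ r : Fin (dim n (F.filter (· ∉ K))) →
      Fin (dim n (F.filter (· ∉ K))) → ℕ,
      ‖x - val (fun p q => dseq hφ (F.filter (· ∈ K)) (r p q)) (hom hφ (F.filter (· ∉ K)))‖ < ε := by
  obtain ⟨y, hy, hxy⟩ := Metric.dense_iff.mp hdense x (ε / 2) (by linarith)
  rw [Metric.mem_ball, dist_eq_norm] at hy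
  obtain ⟨F₁, hF₁⟩ := exists_finset y hxy
  set F := F₀ ∪ F₁ with hF
  set R := F.filter (· ∈ K) with hR
  set Q := F.filter (· ∉ K) with hQ
  have hyF : y ∈ alg φ ((R : Set J) ∪ (Q : Set J)) := by
    have : (F : Set J) = (R : Set J) ∪ (Q : Set J) := by
      rw [hR, hQ, ← Finset.coe_union, Finset.filter_union_filter_not_eq]
    rw [← this]
    refine alg_mono φ ?_ hF₁
    rw [hF]; simp
  have hdisj : Disjoint (R : Set J) (Q : Set J) := by
    rw [Finset.disjoint_coe]
    exact Finset.disjoint_filter_filter_not _ _ _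
  set D : ℝ := (dim n Q : ℝ) * (dim n Q : ℝ) + 1 with hD
  have hDpos : 0 < D := by positivity
  have hr : ∀ p q, ∃ k, ‖S (hom hφ Q) p q y - dseq hφ R k‖ < ε / 2 / D := fun p q =>
    exists_dseq_near hφ R (S_hom_mem hφ hdisj hyF p q) (by positivity)
  choose r hr using hr
  refine ⟨F, Finset.subset_union_left, r, ?_⟩
  have h1 : ‖y - val (fun p q => dseq hφ R (r p q)) (hom hφ Q)‖ ≤ ε / 2 := by
    have e : y - val (fun p q => dseq hφ R (r p q)) (hom hφ Q) =
        ∑ p, ∑ q, (S (hom hφ Q) p q y - dseq hφ R (r p q)) * mu (hom hφ Q) p q := by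
      conv_lhs => rw [sum_S (hom hφ Q) y]
      unfold val
      rw [← Finset.sum_sub_distrib]
      apply Finset.sum_congr rfl; intro p _
      rw [← Finset.sum_sub_distrib]
      apply Finset.sum_congr rfl; intro q _
      rw [sub_mul]
    rw [e]
    calc _ ≤ ∑ p : Fin (dim n Q), ∑ q : Fin (dim n Q), ε / 2 / D := by
          refine (norm_sum_le _ _).trans (Finset.sum_le_sum fun p _ => ?_)
          refine (norm_sum_le _ _).trans (Finset.sum_le_sum fun q _ => ?_)
          refine (norm_mul_le _ _).trans ?_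
          calc _ ≤ (ε / 2 / D) * 1 := by
                gcongr
                · exact (hr p q).le
                · exact norm_mu_le _ _ _
            _ = ε / 2 / D := mul_one _
      _ = (D - 1) * (ε / 2 / D) := by simp [hD]; ring
      _ ≤ D * (ε / 2 / D) := by gcongr; linarith
      _ = ε / 2 := by field_simp
  calc ‖x - val (fun p q => dseq hφ R (r p q)) (hom hφ Q)‖
      = ‖(x - y) + (y - val (fun p q => dseq hφ R (r p q)) (hom hφ Q))‖ := by congr 1; abel
    _ ≤ ‖x - y‖ + ‖y - val (fun p q => dseq hφ R (r p q)) (hom hφ Q)‖ := norm_add_le _ _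
    _ < ε / 2 + ε / 2 := by
        rw [norm_sub_rev] at hy
        linarith
    _ = ε := by ring

end

end Pool.Agent.Helper46_UHF
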