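import Pool.Agent.Helper46_UHF.Character
import Pool.Agent.Helper46_UHF.Support
import Pool.Agent.Helper46_UHF.Comb

/-! The main counting bound: a commuting family of copies of `M_2` inside a nonseparable UHF
algebra has cardinality at most the number of even factors, or is countable. -/

set_option autoImplicit false

open Matrix Cardinal

namespace Pool.Agent.Helper46_UHF

section

variable {J : Type*} {n : J → ℕ} {T : Type*} [CStarAlgebra T]
variable {φ : ∀ j, Matrix (Fin (n j)) (Fin (n j)) ℂ →⋆ₐ[ℂ] T}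

lemma range_hom_sdiff [DecidableEq J] (hφ : CommFam φ) {G G' : Finset J} (h : G ⊆ G') :
    (hom hφ G').range = (hom hφ G).range ⊔ (hom hφ (G' \ G)).range := by
  rw [range_hom, range_hom, range_hom, ← alg_union, ← Finset.coe_union,
    Finset.union_sdiff_of_subset h]

lemma hom_commute (hφ : CommFam φ) {G G' : Finset J} (h : Disjoint G G') (a b) :
    Commute (hom hφ G a) (hom hφ G' b) :=
  alg_commute hφ (Finset.disjoint_coe.2 h) (hom_mem hφ G a) (hom_mem hφ G' b)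

variable [Nontrivial T]

lemma E_hom_eq (hφ : CommFam φ) {F G G' : Finset J} [DecidableEq J] (h : G ⊆ G')
    (hF : Disjoint F (G' \ G)) {z : T} (hz : z ∈ alg φ (F : Set J)) :
    E (hom hφ G') z = E (hom hφ G) z := by
  have := nonempty_dim hφ G
  have := nonempty_dim hφ G'
  have := nonempty_dim hφ (G' \ G)
  rw [E_eq_comp (hom hφ G) (hom hφ (G' \ G)) (hom hφ G')
    (hom_commute hφ Finset.disjoint_sdiff) (range_hom_sdiff hφ h)]
  congr 1
  apply E_of_commute
  intro p q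
  exact alg_commute hφ (Finset.disjoint_coe.2 hF) hz (mu_hom_mem hφ _ p q)

lemma E_S_hom_eq (hφ : CommFam φ) {G G' : Finset J} [DecidableEq J] (h : G ⊆ G')
    (k l : Fin (dim n G)) (z : T) :
    E (hom hφ G') (S (hom hφ G) k l z) = S (hom hφ G) k l (E (hom hφ (G' \ G)) z) := by
  have := nonempty_dim hφ G
  have := nonempty_dim hφ G'
  have := nonempty_dim hφ (G' \ G)
  exact E_S_eq (hom hφ G) (hom hφ (G' \ G)) (hom hφ G')
    (hom_commute hφ Finset.disjoint_sdiff) (range_hom_sdiff hφ h) k l z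

lemma sum_E_S_hom (hφ : CommFam φ) {G G' : Finset J} [DecidableEq J] (h : G ⊆ G') (z : T) :
    ∑ k, ∑ l, E (hom hφ G') (S (hom hφ G) k l z) * mu (hom hφ G) k l =
      E (hom hφ (G' \ G)) z := by
  simp only [E_S_hom_eq hφ h]
  exact (sum_S (hom hφ G) _).symm

end

section

variable {X Y : Type*} [Fintype X] [DecidableEq X] [Fintype Y] [DecidableEq Y]
  {T : Type*} [CStarAlgebra T]

/-- commutator estimate for compressed elements -/
lemma comm_est [Nonempty Y] [Nontrivial T] (Ψ Ψ' : Matrix Y Y ℂ →⋆ₐ[ℂ] T)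
    (Ψ₀ Ψ₀' : Matrix X X ℂ →⋆ₐ[ℂ] T) (k l k' l' : X) (y z : T)
    (h0 : ∀ p q, Commute z (mu Ψ₀ p q)) (h1 : ∀ p q, Commute z (mu Ψ p q))
    (h2 : ∀ p q, Commute (E Ψ (S Ψ₀ k l y)) (mu Ψ₀' p q))
    (h3 : ∀ p q, Commute (E Ψ (S Ψ₀ k l y)) (mu Ψ' p q)) :
    ‖E Ψ (S Ψ₀ k l y) * E Ψ' (S Ψ₀' k' l' z) - E Ψ' (S Ψ₀' k' l' z) * E Ψ (S Ψ₀ k l y)‖ ≤
      ‖y * z - z * y‖ := by
  have := nonempty_of_nontrivial Ψ₀
  have e1 : E Ψ' (S Ψ₀' k' l' (E Ψ (S Ψ₀ k l (y * z)))) =
      E Ψ (S Ψ₀ k l y) * E Ψ' (S Ψ₀' k' l' z) := by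
    rw [S_mul_right Ψ₀ h0, E_mul_right Ψ h1, S_mul_left Ψ₀' h2, E_mul_left Ψ' h3]
  have e2 : E Ψ' (S Ψ₀' k' l' (E Ψ (S Ψ₀ k l (z * y)))) =
      E Ψ' (S Ψ₀' k' l' z) * E Ψ (S Ψ₀ k l y) := by
    rw [S_mul_left Ψ₀ h0, E_mul_left Ψ h1, S_mul_right Ψ₀' h2, E_mul_right Ψ' h3]
  rw [← e1, ← e2, ← map_sub, ← map_sub, ← map_sub, ← map_sub]
  calc _ ≤ ‖S Ψ₀' k' l' (E Ψ (S Ψ₀ k l (y * z - z * y)))‖ := norm_E_le _ _
    _ ≤ ‖E Ψ (S Ψ₀ k l (y * z - z * y))‖ := norm_S_le _ _ _ _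
    _ ≤ ‖S Ψ₀ k l (y * z - z * y)‖ := norm_E_le _ _
    _ ≤ _ := norm_S_le _ _ _ _

lemma norm_comm_le {x x' y y' : T} {δ : ℝ} (hδ : 0 ≤ δ) (hδ1 : δ ≤ 1) (hx : ‖x‖ ≤ 1)
    (hx' : ‖x'‖ ≤ 1) (hxx : Commute x x') (hy : ‖y - x‖ ≤ δ) (hy' : ‖y' - x'‖ ≤ δ) :
    ‖y * y' - y' * y‖ ≤ 6 * δ := by
  have h1 := norm_mul_star_sub_le hδ hx hx' hy hy' hδ1
  have h2 := norm_mul_star_sub_le hδ hx' hx hy' hy hδ1
  have e : y * y' - y' * y = (y * y' - x * x') - (y' * y - x' * x) := by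
    rw [hxx.eq]; abel
  rw [e]
  calc _ ≤ ‖y * y' - x * x'‖ + ‖y' * y - x' * x‖ := norm_sub_le _ _
    _ ≤ 6 * δ := by linarith

/-- The commutator estimate for two realisations of the same coefficient matrix. -/
lemma comm_est_real [Nonempty Y] [Nontrivial T] (Ψ Ψ' : Matrix Y Y ℂ →⋆ₐ[ℂ] T)
    (Ψ₀ : Matrix X X ℂ →⋆ₐ[ℂ] T) (u : Matrix X X ℂ →⋆ₐ[ℂ] Matrix Y Y ℂ)
    (hu : ∀ M, Ψ (u M) = Ψ₀ M) (b : Y → Y → T) (hb : ∀ p q M, Commute (b p q) (Ψ M))
    (hb' : ∀ p q M, Commute (b p q) (Ψ' M)) (hΨ : ∀ M N, Commute (Ψ M) (Ψ' N))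
    {x x' : T} (hx : ‖x‖ ≤ 1) (hx' : ‖x'‖ ≤ 1) (hxx : Commute x x') (hxxs : Commute x (star x'))
    {δ : ℝ} (hδ : 0 ≤ δ) (hδ1 : δ ≤ 1)
    (hy : ‖val b Ψ - x‖ ≤ δ) (hy' : ‖val b Ψ' - x'‖ ≤ δ) (k l k' l' : X) :
    ‖E Ψ (S Ψ₀ k l (val b Ψ)) * E Ψ (S Ψ₀ k' l' (val b Ψ)) -
      E Ψ (S Ψ₀ k' l' (val b Ψ)) * E Ψ (S Ψ₀ k l (val b Ψ))‖ ≤ 6 * δ ∧
    ‖E Ψ (S Ψ₀ k l (val b Ψ)) * star (E Ψ (S Ψ₀ k' l' (val b Ψ))) -
      star (E Ψ (S Ψ₀ k' l' (val b Ψ))) * E Ψ (S Ψ₀ k l (val b Ψ))‖ ≤ 6 * δ := by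
  set Ψ₀' : Matrix X X ℂ →⋆ₐ[ℂ] T := Ψ'.comp u with hΨ₀'
  have hu' : ∀ M, Ψ' (u M) = Ψ₀' M := fun M => rfl
  have hmuΨ₀ : ∀ p q, mu Ψ₀ p q = Ψ (u (Matrix.single p q 1)) := fun p q => (hu _).symm
  -- the two compressed coefficient matrices agree
  have key : ∀ k l, E Ψ' (S Ψ₀' k l (val b Ψ')) = E Ψ (S Ψ₀ k l (val b Ψ)) := by
    intro k l
    rw [E_S_val Ψ' Ψ₀' u hu' b hb', E_S_val Ψ Ψ₀ u hu b hb]
  -- commutation facts
  have hval : ∀ M, Commute (val b Ψ') (Ψ M) := by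
    intro M
    unfold val
    apply Commute.sum_left; intro p _
    apply Commute.sum_left; intro q _
    exact (hb p q M).mul_left (hΨ _ _).symm
  have hcc : ∀ M, Commute (E Ψ (S Ψ₀ k l (val b Ψ))) (Ψ' M) := by
    intro M
    rw [E_S_val Ψ Ψ₀ u hu b hb]
    apply Commute.sum_left; intro p _
    apply Commute.sum_left; intro q _
    exact (hb' p q M).smul_left _
  have hvals : ∀ M, Commute (star (val b Ψ')) (Ψ M) := by
    intro M
    have := (hval (star M)).star_star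
    rwa [map_star, star_star] at this
  constructor
  · have h := comm_est Ψ Ψ' Ψ₀ Ψ₀' k l k' l' (val b Ψ) (val b Ψ')
      (fun p q => by rw [hmuΨ₀]; exact hval _) (fun p q => hval _)
      (fun p q => hcc _) (fun p q => hcc _)
    rw [key] at h
    exact h.trans (norm_comm_le hδ hδ1 hx hx' hxx hy hy')
  · have h := comm_est Ψ Ψ' Ψ₀ Ψ₀' k l l' k' (val b Ψ) (star (val b Ψ'))
      (fun p q => by rw [hmuΨ₀]; exact hvals _) (fun p q => hvals _)
      (fun p q => hcc _) (fun p q => hcc _)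
    rw [← star_S, ← star_E, key] at h
    refine h.trans (norm_comm_le hδ hδ1 hx (by rwa [norm_star]) hxxs hy ?_)
    rw [← star_sub, norm_star]; exact hy'

end

/-- The analytic core: if approximations of `x` can always be realised far away by elements
commuting with `x`, then `x` is close to an element with commuting slices. -/
lemma core {J : Type*} {n : J → ℕ} {T : Type*} [CStarAlgebra T] [Nontrivial T]
    {φ : ∀ j, Matrix (Fin (n j)) (Fin (n j)) ℂ →⋆ₐ[ℂ] T} (hφ : CommFam φ)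
    (hdense : Dense (alg φ Set.univ : Set T)) [DecidableEq J] (K : Set J) [DecidablePred (· ∈ K)]
    (x : T) (hx : ‖x‖ ≤ 1)
    (H : ∀ (m : ℕ) (F : Finset J)
      (r : Fin (dim n (F.filter (· ∉ K))) → Fin (dim n (F.filter (· ∉ K))) → ℕ),
      ‖x - val (fun p q => dseq hφ (F.filter (· ∈ K)) (r p q)) (hom hφ (F.filter (· ∉ K)))‖ <
        1 / ((m : ℝ) + 1) →
      ∃ x' : T, ‖x'‖ ≤ 1 ∧ Commute x x' ∧ Commute x (star x') ∧ ∃ Q' : Finset J, Disjoint Q' F ∧
        ∃ Ψ' : Matrix (Fin (dim n (F.filter (· ∉ K)))) (Fin (dim n (F.filter (· ∉ K)))) ℂ →⋆ₐ[ℂ] T,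
          Ψ'.range ≤ alg φ (Q' : Set J) ∧
          ‖x' - val (fun p q => dseq hφ (F.filter (· ∈ K)) (r p q)) Ψ'‖ < 1 / ((m : ℝ) + 1)) :
    ∃ (Q : Finset J) (xh : T), Disjoint (Q : Set J) K ∧ ‖xh - x‖ ≤ 1 / 2400 ∧
      (∀ k l k' l', S (hom hφ Q) k l xh * S (hom hφ Q) k' l' xh =
        S (hom hφ Q) k' l' xh * S (hom hφ Q) k l xh) ∧
      (∀ k l k' l', S (hom hφ Q) k l xh * star (S (hom hφ Q) k' l' xh) =
        star (S (hom hφ Q) k' l' xh) * S (hom hφ Q) k l xh) := by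
  obtain ⟨F0, -, hF0'⟩ := exists_approx hφ hdense K x (ε := 1 / 4800) (by norm_num) ∅
  have hF : ∀ m : ℕ, ∃ F : Finset J, F0 ⊆ F ∧ ∃ r : Fin (dim n (F.filter (· ∉ K))) →
      Fin (dim n (F.filter (· ∉ K))) → ℕ,
      ‖x - val (fun p q => dseq hφ (F.filter (· ∈ K)) (r p q)) (hom hφ (F.filter (· ∉ K)))‖ <
        1 / ((m : ℝ) + 1) := fun m => exists_approx hφ hdense K x (by positivity) F0
  choose F hF0F r hr using hF
  set Q : Finset J := F0.filter (· ∉ K) with hQ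
  obtain ⟨r0, hF0⟩ := hF0'
  set G : ℕ → Finset J := fun m => (F m).filter (· ∉ K) with hG
  set y0 : T := val (fun p q => dseq hφ (F0.filter (· ∈ K)) (r0 p q)) (hom hφ Q) with hy0
  set y : ℕ → T := fun m => val (fun p q => dseq hφ ((F m).filter (· ∈ K)) (r m p q))
    (hom hφ (G m)) with hy
  have hQG : ∀ m, Q ⊆ G m := fun m => Finset.filter_subset_filter _ (hF0F m)
  -- supports
  have hval_mem : ∀ (F' : Finset J) (r' : Fin (dim n (F'.filter (· ∉ K))) →
      Fin (dim n (F'.filter (· ∉ K))) → ℕ),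
      val (fun p q => dseq hφ (F'.filter (· ∈ K)) (r' p q)) (hom hφ (F'.filter (· ∉ K))) ∈
        alg φ (F' : Set J) := by
    intro F' r'
    unfold val
    refine sum_mem (fun p _ => sum_mem (fun q _ => mul_mem ?_ ?_))
    · exact alg_mono φ (Finset.coe_subset.2 (Finset.filter_subset _ _)) (dseq_mem hφ _ _)
    · exact alg_mono φ (Finset.coe_subset.2 (Finset.filter_subset _ _)) (mu_hom_mem hφ _ _ _)
  have hy_mem : ∀ m, y m ∈ alg φ (F m : Set J) := fun m => hval_mem _ _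
  have hy0_mem : y0 ∈ alg φ (F0 : Set J) := hval_mem _ _
  have hnQ : Nonempty (Fin (dim n Q)) := nonempty_dim hφ Q
  have hnG : ∀ m, Nonempty (Fin (dim n (G m))) := fun m => nonempty_dim hφ (G m)
  set c : ℕ → Fin (dim n Q) → Fin (dim n Q) → T :=
    fun m k l => E (hom hφ (G m)) (S (hom hφ Q) k l (y m)) with hc
  have hδ : ∀ m : ℕ, (0 : ℝ) ≤ 1 / ((m : ℝ) + 1) := fun m => by positivity
  have hδ1 : ∀ m : ℕ, 1 / ((m : ℝ) + 1) ≤ 1 := fun m => by
    rw [div_le_one (by positivity)]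
    linarith [Nat.cast_nonneg (α := ℝ) m]
  have hyx : ∀ m, ‖y m - x‖ ≤ 1 / ((m : ℝ) + 1) := fun m => by
    rw [norm_sub_rev]; exact (hr m).le
  -- comparison of different stages
  have hcomp : ∀ m (G' : Finset J), G m ⊆ G' → Disjoint (G' : Set J) K → ∀ k l,
      c m k l = E (hom hφ G') (S (hom hφ Q) k l (y m)) := by
    intro m G' hGG' hG'K k l
    refine (E_hom_eq hφ (F := F m) hGG' ?_ ?_).symm
    · rw [Finset.disjoint_left]
      intro j hj hj'
      rw [Finset.mem_sdiff] at hj'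
      apply hj'.2
      simp only [hG, Finset.mem_filter]
      exact ⟨hj, fun hjK => Set.disjoint_left.mp hG'K hj'.1 hjK⟩
    · refine S_mem _ ?_ _ _ (hy_mem m)
      rw [range_hom]
      refine alg_mono φ (Finset.coe_subset.2 ((hQG m).trans (Finset.filter_subset _ _)))
  have hGK : ∀ m, Disjoint (G m : Set J) K := by
    intro m
    rw [Set.disjoint_left]
    intro j hj
    simp only [hG, Finset.coe_filter, Set.mem_ofPred_eq] at hj
    exact hj.2
  have hcc : ∀ m m' k l, ‖c m k l - c m' k l‖ ≤ 1 / ((m : ℝ) + 1) + 1 / ((m' : ℝ) + 1) := by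
    intro m m' k l
    have hd : Disjoint ((G m ∪ G m' : Finset J) : Set J) K := by
      rw [Finset.coe_union, Set.disjoint_union_left]; exact ⟨hGK m, hGK m'⟩
    rw [hcomp m (G m ∪ G m') Finset.subset_union_left hd,
      hcomp m' (G m ∪ G m') Finset.subset_union_right hd, ← map_sub, ← map_sub]
    have := nonempty_dim hφ (G m ∪ G m')
    calc _ ≤ ‖S (hom hφ Q) k l (y m - y m')‖ := norm_E_le _ _
      _ ≤ ‖y m - y m'‖ := norm_S_le _ _ _ _
      _ = ‖(y m - x) - (y m' - x)‖ := by congr 1; abel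
      _ ≤ ‖y m - x‖ + ‖y m' - x‖ := norm_sub_le _ _
      _ ≤ _ := add_le_add (hyx m) (hyx m')
  have hcauchy : ∀ k l, CauchySeq (fun m => c m k l) := by
    intro k l
    refine cauchySeq_of_le_tendsto_0 (fun N : ℕ => 2 * (1 / ((N : ℝ) + 1))) ?_ ?_
    · intro m m' N hm hm'
      rw [dist_eq_norm]
      refine (hcc m m' k l).trans ?_
      have h1 := Nat.one_div_le_one_div (α := ℝ) hm
      have h2 := Nat.one_div_le_one_div (α := ℝ) hm'
      linarith
    · have := (tendsto_one_div_add_atTop_nhds_zero_nat (𝕜 := ℝ)).const_mul 2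
      simpa using this
  have hlim : ∀ k l, ∃ b, Filter.Tendsto (fun m => c m k l) Filter.atTop (nhds b) :=
    fun k l => cauchySeq_tendsto_of_complete (hcauchy k l)
  choose b hb using hlim
  have h0 : Filter.Tendsto (fun m : ℕ => 6 * (1 / ((m : ℝ) + 1))) Filter.atTop (nhds 0) := by
    have := (tendsto_one_div_add_atTop_nhds_zero_nat (𝕜 := ℝ)).const_mul 6
    simpa using this
  -- commutator estimates
  have hest : ∀ m k l k' l', ‖c m k l * c m k' l' - c m k' l' * c m k l‖ ≤ 6 * (1 / ((m : ℝ) + 1)) ∧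
      ‖c m k l * star (c m k' l') - star (c m k' l') * c m k l‖ ≤ 6 * (1 / ((m : ℝ) + 1)) := by
    intro m k l k' l'
    obtain ⟨x', hx', hxx, hxxs, Q', hQ', Ψ', hΨ', hval'⟩ := H m (F m) (r m) (hr m)
    have hle : (hom hφ Q).range ≤ (hom hφ (G m)).range := by
      rw [range_hom, range_hom]
      exact alg_mono φ (Finset.coe_subset.2 (hQG m))
    obtain ⟨u, hu⟩ := exists_incl (hom hφ Q) (hom hφ (G m)) hle
    refine comm_est_real (hom hφ (G m)) Ψ' (hom hφ Q) u hu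
      (fun p q => dseq hφ ((F m).filter (· ∈ K)) (r m p q)) ?_ ?_ ?_ hx hx' hxx hxxs
      (hδ m) (hδ1 m) (hyx m) ?_ k l k' l'
    · intro p q M
      refine alg_commute hφ ?_ (dseq_mem hφ _ _) (hom_mem hφ _ _)
      rw [Finset.disjoint_coe]
      exact Finset.disjoint_filter_filter_not _ _ _
    · intro p q M
      refine alg_commute hφ (s := ((F m).filter (· ∈ K) : Finset J)) (t := (Q' : Set J)) ?_
        (dseq_mem hφ _ _) (hΨ' ⟨M, rfl⟩)
      rw [Finset.disjoint_coe]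
      exact (hQ'.mono_right (Finset.filter_subset _ _)).symm
    · intro M N
      refine alg_commute hφ (s := (G m : Set J)) (t := (Q' : Set J)) ?_
        (hom_mem hφ _ _) (hΨ' ⟨N, rfl⟩)
      rw [Finset.disjoint_coe]
      exact (hQ'.mono_right (Finset.filter_subset _ _)).symm
    · rw [norm_sub_rev]; exact hval'.le
  have hbb : ∀ k l k' l', b k l * b k' l' = b k' l' * b k l := by
    intro k l k' l'
    have h1 : Filter.Tendsto (fun m => c m k l * c m k' l' - c m k' l' * c m k l) Filter.atTop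
        (nhds (b k l * b k' l' - b k' l' * b k l)) :=
      ((hb k l).mul (hb k' l')).sub ((hb k' l').mul (hb k l))
    have h2 : Filter.Tendsto (fun m => c m k l * c m k' l' - c m k' l' * c m k l) Filter.atTop
        (nhds 0) := squeeze_zero_norm (fun m => (hest m k l k' l').1) h0
    exact sub_eq_zero.1 (tendsto_nhds_unique h1 h2)
  have hbbs : ∀ k l k' l', b k l * star (b k' l') = star (b k' l') * b k l := by
    intro k l k' l'
    have h1 : Filter.Tendsto (fun m => c m k l * star (c m k' l') - star (c m k' l') * c m k l)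
        Filter.atTop (nhds (b k l * star (b k' l') - star (b k' l') * b k l)) :=
      ((hb k l).mul (hb k' l').star).sub ((hb k' l').star.mul (hb k l))
    have h2 : Filter.Tendsto (fun m => c m k l * star (c m k' l') - star (c m k' l') * c m k l)
        Filter.atTop (nhds 0) := squeeze_zero_norm (fun m => (hest m k l k' l').2) h0
    exact sub_eq_zero.1 (tendsto_nhds_unique h1 h2)
  -- the limits commute with the copy attached to `Q`
  have hbQ : ∀ k l p q, Commute (b k l) (mu (hom hφ Q) p q) := by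
    intro k l p q
    have hcomm : ∀ m, c m k l * mu (hom hφ Q) p q = mu (hom hφ Q) p q * c m k l := by
      intro m
      have : mu (hom hφ Q) p q ∈ (hom hφ (G m)).range := by
        rw [range_hom]
        exact alg_mono φ (Finset.coe_subset.2 (hQG m)) (mu_hom_mem hφ Q p q)
      obtain ⟨M, hM⟩ := this
      have hM' : hom hφ (G m) M = mu (hom hφ Q) p q := hM
      rw [← hM']
      exact (E_commute (hom hφ (G m)) _ M).eq
    have h1 := (hb k l).mul_const (mu (hom hφ Q) p q)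
    have h2 := (hb k l).const_mul (mu (hom hφ Q) p q)
    simp only [hcomm] at h1
    exact tendsto_nhds_unique h1 h2
  set xh : T := ∑ k, ∑ l, b k l * mu (hom hφ Q) k l with hxh
  have hSxh : ∀ k l, S (hom hφ Q) k l xh = b k l := by
    intro k l
    rw [hxh, map_sum]
    rw [Finset.sum_eq_single k]
    · rw [map_sum, Finset.sum_eq_single l]
      · rw [S_mul_left _ (hbQ k l)]
        unfold mu
        rw [S_map, Matrix.single_apply_same, one_smul, mul_one]
      · intro l' _ hl'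
        rw [S_mul_left _ (hbQ k l')]
        unfold mu
        rw [S_map, Matrix.single_apply_of_ne _ _ _ _ _ (by simp [hl']), zero_smul, mul_zero]
      · simp
    · intro k' _ hk'
      rw [map_sum]
      apply Finset.sum_eq_zero; intro l' _
      rw [S_mul_left _ (hbQ k' l')]
      unfold mu
      rw [S_map, Matrix.single_apply_of_ne _ _ _ _ _ (by simp [hk']), zero_smul, mul_zero]
    · simp
  refine ⟨Q, xh, ?_, ?_, ?_, ?_⟩
  · rw [Set.disjoint_left]
    intro j hj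
    simp only [hQ, Finset.coe_filter, Set.mem_ofPred_eq] at hj
    exact hj.2
  · have hz : ∀ m, ‖(∑ k, ∑ l, c m k l * mu (hom hφ Q) k l) - x‖ ≤
        1 / ((m : ℝ) + 1) + 1 / 2400 := by
      intro m
      have e1 : ∑ k, ∑ l, c m k l * mu (hom hφ Q) k l = E (hom hφ (G m \ Q)) (y m) :=
        sum_E_S_hom hφ (hQG m) (y m)
      have hne := nonempty_dim hφ (G m \ Q)
      have e2 : E (hom hφ (G m \ Q)) y0 = y0 := by
        apply E_of_commute
        intro p q
        refine alg_commute hφ ?_ hy0_mem (mu_hom_mem hφ _ p q)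
        rw [Finset.disjoint_coe, Finset.disjoint_left]
        intro j hj hj'
        rw [Finset.mem_sdiff] at hj'
        apply hj'.2
        simp only [hQ, Finset.mem_filter]
        refine ⟨hj, ?_⟩
        have := hj'.1
        simp only [hG, Finset.mem_filter] at this
        exact this.2
      rw [e1]
      have e3 : E (hom hφ (G m \ Q)) (y m) - x = E (hom hφ (G m \ Q)) (y m - y0) + (y0 - x) := by
        rw [map_sub, e2]; abel
      rw [e3]
      have h3 : ‖y0 - x‖ ≤ 1 / 4800 := by rw [norm_sub_rev]; exact hF0.le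
      calc _ ≤ ‖E (hom hφ (G m \ Q)) (y m - y0)‖ + ‖y0 - x‖ := norm_add_le _ _
        _ ≤ ‖y m - y0‖ + ‖y0 - x‖ := by gcongr; exact norm_E_le _ _
        _ = ‖(y m - x) - (y0 - x)‖ + ‖y0 - x‖ := by congr 2; abel
        _ ≤ ‖y m - x‖ + ‖y0 - x‖ + ‖y0 - x‖ := by gcongr; exact norm_sub_le _ _
        _ ≤ 1 / ((m : ℝ) + 1) + 1 / 4800 + 1 / 4800 := by gcongr; exact hyx m
        _ = _ := by ring
    have h1 : Filter.Tendsto (fun m => ‖(∑ k, ∑ l, c m k l * mu (hom hφ Q) k l) - x‖)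
        Filter.atTop (nhds ‖xh - x‖) := by
      apply Filter.Tendsto.norm
      apply Filter.Tendsto.sub_const
      apply tendsto_finsetSum; intro k _
      apply tendsto_finsetSum; intro l _
      exact (hb k l).mul_const _
    have h2 : Filter.Tendsto (fun m : ℕ => 1 / ((m : ℝ) + 1) + 1 / 2400) Filter.atTop
        (nhds (0 + 1 / 2400)) :=
      (tendsto_one_div_add_atTop_nhds_zero_nat (𝕜 := ℝ)).add_const _
    have h3 := le_of_tendsto_of_tendsto' h1 h2 hz
    rwa [zero_add] at h3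
  · intro k l k' l'
    rw [hSxh, hSxh]; exact hbb _ _ _ _
  · intro k l k' l'
    rw [hSxh, hSxh]; exact hbbs _ _ _ _

universe u

/-- **Main bound.** A pairwise commuting family of unital copies of `M_2` in (a nonzero quotient of)
`⊗ M_{n j}` is at most countable or has at most as many members as there are even factors. -/
theorem card_le {J K' : Type u} {n : J → ℕ} {T : Type*} [CStarAlgebra T] [Nontrivial T]
    {φ : ∀ j, Matrix (Fin (n j)) (Fin (n j)) ℂ →⋆ₐ[ℂ] T} (hφ : CommFam φ)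
    (hdense : Dense (alg φ Set.univ : Set T))
    (ψ : K' → (Matrix (Fin 2) (Fin 2) ℂ →⋆ₐ[ℂ] T))
    (hψ : ∀ i j, i ≠ j → ∀ a b, Commute (ψ i a) (ψ j b)) :
    #K' ≤ max #({j | Even (n j)} : Set J) ℵ₀ := by
  classical
  by_contra hcon
  rw [not_le] at hcon
  let C : Type := Σ d : ℕ, ℕ × (Fin d → Fin d → ℕ)
  let Rel : C → Finset J → Set (K' × Finset J) := fun c R => {x |
    ∃ Ψ : Matrix (Fin c.1) (Fin c.1) ℂ →⋆ₐ[ℂ] T, Ψ.range ≤ alg φ (x.2 : Set J) ∧
      ‖mu (ψ x.1) 0 1 - val (fun p q => dseq hφ R (c.2.2 p q)) Ψ‖ < 1 / ((c.2.1 : ℝ) + 1)}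
  obtain ⟨K, i, hJ0, hK⟩ := comb {j | Even (n j)} _ (le_max_right _ _) (le_max_left _ _) hcon Rel
  obtain ⟨Q, xh, hQK, hxh, h1, h2⟩ := core hφ hdense K (mu (ψ i) 0 1) (norm_mu_le _ _ _) (by
    intro m F r hr
    let c : C := ⟨dim n (F.filter (· ∉ K)), m, r⟩
    obtain ⟨⟨i', Q'⟩, hmem, hne, hdisj⟩ := hK c (F.filter (· ∈ K))
      (by intro j hj; simp only [Finset.coe_filter, Set.mem_ofPred_eq] at hj; exact hj.2)
      (F.filter (· ∉ K))
      (by rw [Set.disjoint_left]; intro j hj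
          simp only [Finset.coe_filter, Set.mem_ofPred_eq] at hj; exact hj.2)
      ⟨hom hφ (F.filter (· ∉ K)), (range_hom hφ _).le, hr⟩ F
    obtain ⟨Ψ', hΨ', hval'⟩ := hmem
    refine ⟨mu (ψ i') 0 1, norm_mu_le _ _ _, hψ _ _ (Ne.symm hne) _ _, ?_, Q', hdisj, Ψ', hΨ', hval'⟩
    rw [star_mu]
    exact hψ _ _ (Ne.symm hne) _ _)
  have hdvd := even_card_of_commuting_slices (hom hφ Q) (ψ i) xh h1 h2 hxh
  rw [Fintype.card_fin, dim, Prime.dvd_finsetProd_iff Nat.prime_two.prime] at hdvd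
  obtain ⟨j, hj, hjd⟩ := hdvd
  exact Set.disjoint_left.mp hQK hj (hJ0 (even_iff_two_dvd.2 hjd))

end Pool.Agent.Helper46_UHF
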