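import Pool.Agent.Helper46_UHF.Universal
import Pool.Agent.Helper46_UHF.Main

/-! Divisibility for finitely many copies of `M_2`, and unital homomorphisms between matrix
algebras. -/

set_option autoImplicit false

open Matrix
open scoped Matrix.Norms.L2Operator

namespace Pool.Agent.Helper46_UHF

variable {J : Type*} {n : J → ℕ} {T : Type*} [CStarAlgebra T] [Nontrivial T]
variable {φ : ∀ j, Matrix (Fin (n j)) (Fin (n j)) ℂ →⋆ₐ[ℂ] T}

/-- a unital copy of `M_m` in `⊗ M_{n j}` forces `m` to divide a finite subproduct -/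
theorem exists_dvd (hφ : CommFam φ) (hdense : Dense (alg φ Set.univ : Set T)) {m : ℕ} [NeZero m]
    (Ψ : Matrix (Fin m) (Fin m) ℂ →⋆ₐ[ℂ] T) : ∃ F : Finset J, m ∣ ∏ j ∈ F, n j := by
  classical
  have hm : (1 : ℝ) ≤ m := by exact_mod_cast Nat.one_le_iff_ne_zero.mpr (NeZero.ne m)
  set ε : ℝ := 1 / (200 * (m : ℝ) ^ 2) with hε
  have hεpos : 0 < ε := by positivity
  have h1 : ∀ i : Fin m, ∃ y ∈ alg φ Set.univ, ‖y - mu Ψ 0 i‖ < ε := by
    intro i
    obtain ⟨y, hy, hxy⟩ := Metric.dense_iff.mp hdense (mu Ψ 0 i) ε hεpos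
    rw [Metric.mem_ball, dist_eq_norm] at hy
    exact ⟨y, hxy, hy⟩
  choose y hy hyε using h1
  choose F hF using fun i => exists_finset (y i) (hy i)
  set G : Finset J := Finset.univ.biUnion F with hG
  have h2 : ∀ i, ∃ M, hom hφ G M = y i := by
    intro i
    apply exists_of_mem
    refine alg_mono φ ?_ (hF i)
    rw [Finset.coe_subset]
    exact Finset.subset_biUnion_of_mem F (Finset.mem_univ i)
  choose w hw using h2
  refine ⟨G, ?_⟩
  have := dvd_of_approx_hom Ψ (hom hφ G) (injective_of_nontrivial _) (StarAlgHom.id ℂ _) w ε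
    hεpos.le (by rw [hε]; field_simp; exact le_rfl) (fun i => by rw [hw]; exact (hyε i).le)
  rwa [Fintype.card_fin] at this

/-- if `d ∣ m` there is a unital homomorphism `M_d → M_m` -/
lemma exists_hom_of_dvd {d m : ℕ} (h : d ∣ m) :
    Nonempty (Matrix (Fin d) (Fin d) ℂ →⋆ₐ[ℂ] Matrix (Fin m) (Fin m) ℂ) := by
  obtain ⟨c, rfl⟩ := h
  refine ⟨{ toFun := fun M => (Matrix.blockDiagonal (fun _ : Fin c => M)).submatrix
              finProdFinEquiv.symm finProdFinEquiv.symm
            map_one' := ?_
            map_mul' := ?_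
            map_zero' := ?_
            map_add' := ?_
            commutes' := ?_
            map_star' := ?_ }⟩
  · change (Matrix.blockDiagonal (1 : Fin c → Matrix (Fin d) (Fin d) ℂ)).submatrix _ _ = 1
    rw [Matrix.blockDiagonal_one, Matrix.submatrix_one_equiv]
  · intro M N
    rw [Matrix.submatrix_mul_equiv, ← Matrix.blockDiagonal_mul]
  · change (Matrix.blockDiagonal (0 : Fin c → Matrix (Fin d) (Fin d) ℂ)).submatrix _ _ = 0
    rw [Matrix.blockDiagonal_zero, Matrix.submatrix_zero]; rfl
  · intro M N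
    change (Matrix.blockDiagonal ((fun _ => M) + (fun _ => N) :
      Fin c → Matrix (Fin d) (Fin d) ℂ)).submatrix _ _ = _
    rw [Matrix.blockDiagonal_add, Matrix.submatrix_add]; rfl
  · intro r
    ext i j
    simp only [Matrix.submatrix_apply, Matrix.blockDiagonal_apply, Matrix.algebraMap_matrix_apply]
    by_cases hij : i = j
    · subst hij; simp
    · simp only [hij, if_false]
      split_ifs with h1 h2
      · exact absurd (finProdFinEquiv.symm.injective (Prod.ext h2 h1)) hij
      · rfl
      · rfl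
  · intro M
    change (Matrix.blockDiagonal (fun _ : Fin c => Mᴴ)).submatrix _ _ =
      ((Matrix.blockDiagonal (fun _ : Fin c => M)).submatrix _ _)ᴴ
    rw [Matrix.conjTranspose_submatrix, Matrix.blockDiagonal_conjTranspose]

/-- a finite tensor product of copies of `M_2` is a full matrix algebra -/
lemma bijective_hom_univ [Finite J] [Fintype J] (hφ : CommFam φ)
    (hdense : Dense (alg φ Set.univ : Set T)) : Function.Bijective (hom hφ Finset.univ) := by
  refine ⟨injective_of_nontrivial _, ?_⟩
  have hiso : Isometry (hom hφ Finset.univ) := by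
    apply Isometry.of_dist_eq
    intro x y
    rw [dist_eq_norm, dist_eq_norm, ← map_sub]
    exact NonUnitalStarAlgHom.norm_map (hom hφ Finset.univ) (injective_of_nontrivial _) _
  have hcl : IsClosed (Set.range (hom hφ Finset.univ)) := hiso.isClosedEmbedding.isClosed_range
  have h1 : Set.range (hom hφ Finset.univ) = (alg φ Set.univ : Set T) := by
    rw [← Finset.coe_univ, ← range_hom hφ]; rfl
  intro t
  have h2 : t ∈ closure (Set.range (hom hφ Finset.univ)) := by rw [h1]; exact hdense t
  rw [hcl.closure_eq] at h2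
  exact h2

/-- If the index set is finite with `N` elements and `2 ^ N` divides a finite subproduct of `n`,
then `⊗_K M_2` embeds unitally into `⊗ M_{n j}`. -/
lemma exists_embedding_of_dvd {K : Type*} [Fintype K] {B : Type*} [CStarAlgebra B] [Nontrivial B]
    {β : K → (Matrix (Fin 2) (Fin 2) ℂ →⋆ₐ[ℂ] B)}
    (hβ : CommFam (n := fun _ : K => 2) β)
    (hd : Dense (alg (n := fun _ : K => 2) β Set.univ : Set B))
    (hφ : CommFam φ) (F : Finset J) (hF : 2 ^ Fintype.card K ∣ ∏ j ∈ F, n j) :
    ∃ f : B →⋆ₐ[ℂ] T, Function.Injective f := by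
  have hbij := bijective_hom_univ hβ hd
  let e := StarAlgEquiv.ofBijective (hom hβ Finset.univ) hbij
  have hdim : dim (fun _ : K => 2) Finset.univ = 2 ^ Fintype.card K := by
    unfold dim
    rw [Finset.prod_const, Finset.card_univ]
  obtain ⟨g⟩ := exists_hom_of_dvd (d := dim (fun _ : K => 2) Finset.univ) (m := dim n F)
    (by rw [hdim]; exact hF)
  refine ⟨((hom hφ F).comp g).comp (e.symm : B →⋆ₐ[ℂ] _), ?_⟩
  have h1 := injective_of_nontrivial ((hom hφ F).comp g)
  intro a b hab
  exact e.symm.injective (h1 hab)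

end Pool.Agent.Helper46_UHF
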