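import Pool.Agent.Helper46_UHF.Slices

/-! Commuting families of unital copies of matrix algebras. -/

set_option autoImplicit false

open Matrix

namespace Pool.Agent.Helper46_UHF

section range

variable {X : Type*} [Fintype X] [DecidableEq X] {T : Type*} [CStarAlgebra T]

lemma mem_range_iff (Ψ : Matrix X X ℂ →⋆ₐ[ℂ] T) (t : T) : t ∈ Ψ.range ↔ ∃ M, Ψ M = t := Iff.rfl

lemma mu_mem_range (Ψ : Matrix X X ℂ →⋆ₐ[ℂ] T) (p q : X) : mu Ψ p q ∈ Ψ.range :=
  ⟨_, rfl⟩

lemma range_le_iff (Ψ : Matrix X X ℂ →⋆ₐ[ℂ] T) (A : StarSubalgebra ℂ T) :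
    Ψ.range ≤ A ↔ ∀ p q, mu Ψ p q ∈ A := by
  constructor
  · intro h p q; exact h (mu_mem_range Ψ p q)
  · rintro h _ ⟨M, rfl⟩
    change Ψ M ∈ A
    rw [map_eq_sum]
    exact sum_mem (fun p _ => sum_mem (fun q _ => A.smul_mem (h p q) _))

lemma injective_of_nontrivial [Nontrivial T] (Ψ : Matrix X X ℂ →⋆ₐ[ℂ] T) :
    Function.Injective Ψ := by
  intro M N h
  ext p q
  have h1 := S_map Ψ p q M
  have h2 := S_map Ψ p q N
  rw [h] at h1
  have h3 : (M p q - N p q) • (1 : T) = 0 := by rw [sub_smul, ← h1, ← h2, sub_self]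
  rcases smul_eq_zero.mp h3 with h4 | h4
  · exact sub_eq_zero.mp h4
  · exact absurd h4 one_ne_zero

lemma nonempty_of_nontrivial [Nontrivial T] (Ψ : Matrix X X ℂ →⋆ₐ[ℂ] T) : Nonempty X := by
  by_contra hX
  rw [not_nonempty_iff] at hX
  have h := sum_mu Ψ
  rw [Finset.univ_eq_empty, Finset.sum_empty] at h
  exact zero_ne_one h

/-- reindexing a unital copy of a matrix algebra -/
noncomputable def reindexHom {Y : Type*} [Fintype Y] [DecidableEq Y] (e : X ≃ Y)
    (Ψ : Matrix X X ℂ →⋆ₐ[ℂ] T) : Matrix Y Y ℂ →⋆ₐ[ℂ] T :=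
  ofUnits (fun p q => mu Ψ (e.symm p) (e.symm q))
    (by
      intro p q r s
      rw [mu_mul]
      simp [e.symm.injective.eq_iff])
    (fun p q => star_mu Ψ _ _)
    (by
      rw [← sum_mu Ψ]
      exact Equiv.sum_comp e.symm (fun x => mu Ψ x x))

lemma mu_ofUnits (u : X → X → T)
    (hmul : ∀ p q r s, u p q * u r s = if q = r then u p s else 0)
    (hstar : ∀ p q, star (u p q) = u q p) (hone : ∑ p, u p p = 1) (p q : X) :
    mu (ofUnits u hmul hstar hone) p q = u p q := by
  unfold mu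
  rw [ofUnits_apply]
  rw [Finset.sum_eq_single p, Finset.sum_eq_single q]
  · simp
  · intro q' _ hq'; rw [Matrix.single_apply_of_col_ne _ _ (Ne.symm hq')]; simp
  · simp
  · intro p' _ hp'
    apply Finset.sum_eq_zero; intro q' _
    rw [Matrix.single_apply_of_row_ne (Ne.symm hp')]; simp
  · simp

lemma mu_reindexHom {Y : Type*} [Fintype Y] [DecidableEq Y] (e : X ≃ Y)
    (Ψ : Matrix X X ℂ →⋆ₐ[ℂ] T) (p q : Y) :
    mu (reindexHom e Ψ) p q = mu Ψ (e.symm p) (e.symm q) := mu_ofUnits _ _ _ _ p q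

lemma range_reindexHom {Y : Type*} [Fintype Y] [DecidableEq Y] (e : X ≃ Y)
    (Ψ : Matrix X X ℂ →⋆ₐ[ℂ] T) : (reindexHom e Ψ).range = Ψ.range := by
  apply le_antisymm
  · rw [range_le_iff]
    intro p q
    rw [mu_reindexHom]
    exact mu_mem_range Ψ _ _
  · rw [range_le_iff]
    intro p q
    have := mu_mem_range (reindexHom e Ψ) (e p) (e q)
    rw [mu_reindexHom] at this
    simpa using this

end range

section pair

variable {X : Type*} [Fintype X] [DecidableEq X] {Y : Type*} [Fintype Y] [DecidableEq Y]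
  {T : Type*} [CStarAlgebra T]

/-- the product of two commuting unital copies of matrix algebras -/
noncomputable def pairHom (α : Matrix X X ℂ →⋆ₐ[ℂ] T) (β : Matrix Y Y ℂ →⋆ₐ[ℂ] T)
    (h : ∀ a b, Commute (α a) (β b)) : Matrix (X × Y) (X × Y) ℂ →⋆ₐ[ℂ] T :=
  ofUnits (fun p q => mu α p.1 q.1 * mu β p.2 q.2)
    (by
      rintro ⟨p, p'⟩ ⟨q, q'⟩ ⟨r, r'⟩ ⟨s, s'⟩
      have hc : Commute (mu α r s) (mu β p' q') := h _ _
      have e1 : mu α p q * mu β p' q' * (mu α r s * mu β r' s') =
          (mu α p q * mu α r s) * (mu β p' q' * mu β r' s') := by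
        rw [mul_assoc, ← mul_assoc (mu β p' q'), ← hc.eq]; simp only [mul_assoc]
      simp only [Prod.mk.injEq]
      rw [e1, mu_mul, mu_mul]
      by_cases h1 : q = r <;> by_cases h2 : q' = r' <;> simp [h1, h2])
    (by
      rintro ⟨p, p'⟩ ⟨q, q'⟩
      have hc : Commute (mu α q p) (mu β q' p') := h _ _
      simp only
      rw [star_mul, star_mu, star_mu, hc.eq])
    (by
      rw [Fintype.sum_prod_type]
      simp only
      have : ∀ x, ∑ y, mu α x x * mu β y y = mu α x x := by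
        intro x; rw [← Finset.mul_sum, sum_mu, mul_one]
      simp only [this, sum_mu])

lemma mu_pairHom (α : Matrix X X ℂ →⋆ₐ[ℂ] T) (β : Matrix Y Y ℂ →⋆ₐ[ℂ] T)
    (h : ∀ a b, Commute (α a) (β b)) (p q : X × Y) :
    mu (pairHom α β h) p q = mu α p.1 q.1 * mu β p.2 q.2 := mu_ofUnits _ _ _ _ p q

lemma range_pairHom (α : Matrix X X ℂ →⋆ₐ[ℂ] T) (β : Matrix Y Y ℂ →⋆ₐ[ℂ] T)
    (h : ∀ a b, Commute (α a) (β b)) : (pairHom α β h).range = α.range ⊔ β.range := by
  apply le_antisymm
  · rw [range_le_iff]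
    intro p q
    rw [mu_pairHom]
    exact mul_mem ((le_sup_left : α.range ≤ α.range ⊔ β.range) (mu_mem_range α _ _))
      ((le_sup_right : β.range ≤ α.range ⊔ β.range) (mu_mem_range β _ _))
  · apply sup_le
    · rw [range_le_iff]
      intro p q
      have : mu α p q = ∑ y, mu (pairHom α β h) (p, y) (q, y) := by
        simp only [mu_pairHom]
        rw [← Finset.mul_sum, sum_mu, mul_one]
      rw [this]
      exact sum_mem (fun y _ => mu_mem_range _ _ _)
    · rw [range_le_iff]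
      intro p q
      have : mu β p q = ∑ x, mu (pairHom α β h) (x, p) (x, q) := by
        simp only [mu_pairHom]
        rw [← Finset.sum_mul, sum_mu, one_mul]
      rw [this]
      exact sum_mem (fun y _ => mu_mem_range _ _ _)

end pair

lemma exists_pairFin {T : Type*} [CStarAlgebra T] {a b : ℕ}
    (α : Matrix (Fin a) (Fin a) ℂ →⋆ₐ[ℂ] T) (β : Matrix (Fin b) (Fin b) ℂ →⋆ₐ[ℂ] T)
    (h : ∀ x y, Commute (α x) (β y)) :
    ∃ Φ : Matrix (Fin (a * b)) (Fin (a * b)) ℂ →⋆ₐ[ℂ] T, Φ.range = α.range ⊔ β.range := by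
  refine ⟨reindexHom finProdFinEquiv (pairHom α β h), ?_⟩
  rw [range_reindexHom, range_pairHom]

section family

variable {J : Type*} {n : J → ℕ} {T : Type*} [CStarAlgebra T]

/-- the star subalgebra generated by the copies with index in `s` -/
noncomputable def alg (φ : ∀ j, Matrix (Fin (n j)) (Fin (n j)) ℂ →⋆ₐ[ℂ] T) (s : Set J) :
    StarSubalgebra ℂ T := StarAlgebra.adjoin ℂ (⋃ j ∈ s, Set.range (φ j))

variable (φ : ∀ j, Matrix (Fin (n j)) (Fin (n j)) ℂ →⋆ₐ[ℂ] T)

lemma alg_mono {s t : Set J} (h : s ⊆ t) : alg φ s ≤ alg φ t := by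
  apply StarAlgebra.adjoin_mono
  exact Set.biUnion_subset_biUnion_left h

lemma range_le_alg {s : Set J} {j : J} (hj : j ∈ s) : (φ j).range ≤ alg φ s := by
  rintro _ ⟨M, rfl⟩
  apply StarAlgebra.subset_adjoin
  simp only [Set.mem_iUnion]
  exact ⟨j, hj, M, rfl⟩

lemma alg_le_iff {s : Set J} {A : StarSubalgebra ℂ T} :
    alg φ s ≤ A ↔ ∀ j ∈ s, (φ j).range ≤ A := by
  constructor
  · intro h j hj; exact (range_le_alg φ hj).trans h
  · intro h
    apply StarAlgebra.adjoin_le
    intro x hx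
    simp only [Set.mem_iUnion] at hx
    obtain ⟨j, hj, M, rfl⟩ := hx
    exact h j hj ⟨M, rfl⟩

lemma alg_union (s t : Set J) : alg φ (s ∪ t) = alg φ s ⊔ alg φ t := by
  apply le_antisymm
  · rw [alg_le_iff]
    rintro j (hj | hj)
    · exact (range_le_alg φ hj).trans le_sup_left
    · exact (range_le_alg φ hj).trans le_sup_right
  · exact sup_le (alg_mono φ Set.subset_union_left) (alg_mono φ Set.subset_union_right)

lemma commute_of_le_centralizer {s : Set T} {x : T} (hx : x ∈ StarSubalgebra.centralizer ℂ s)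
    {y : T} (hy : y ∈ StarAlgebra.adjoin ℂ s) : Commute x y := by
  have h1 : s ⊆ (StarSubalgebra.centralizer ℂ {x} : StarSubalgebra ℂ T) := by
    intro z hz
    rw [SetLike.mem_coe, StarSubalgebra.mem_centralizer_iff]
    intro g hg
    rw [Set.mem_singleton_iff] at hg
    subst hg
    have := (StarSubalgebra.mem_centralizer_iff ℂ).1 hx z hz
    refine ⟨this.1.symm, ?_⟩
    have h2 := congrArg star this.2
    simpa using h2
  have h2 := (StarAlgebra.adjoin_le h1) hy
  exact ((StarSubalgebra.mem_centralizer_iff ℂ).1 h2 x rfl).1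

/-- pairwise commuting copies -/
def CommFam : Prop := ∀ i j, i ≠ j → ∀ a b, Commute (φ i a) (φ j b)

variable {φ}

lemma alg_commute (hφ : CommFam φ) {s t : Set J} (hst : Disjoint s t) {x y : T}
    (hx : x ∈ alg φ s) (hy : y ∈ alg φ t) : Commute x y := by
  have h1 : ∀ z ∈ alg φ t, ∀ j ∈ s, ∀ M, Commute (φ j M) z := by
    intro z hz j hj M
    apply commute_of_le_centralizer _ hz
    rw [StarSubalgebra.mem_centralizer_iff]
    intro g hg
    simp only [Set.mem_iUnion] at hg
    obtain ⟨i, hi, N, rfl⟩ := hg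
    have hij : i ≠ j := by
      rintro rfl
      exact (Set.disjoint_left.mp hst hj hi)
    refine ⟨(hφ i j hij N M).eq, ?_⟩
    rw [← map_star]
    exact (hφ i j hij _ M).eq
  have h2 : y ∈ StarSubalgebra.centralizer ℂ (⋃ j ∈ s, Set.range (φ j)) := by
    rw [StarSubalgebra.mem_centralizer_iff]
    intro g hg
    simp only [Set.mem_iUnion] at hg
    obtain ⟨i, hi, N, rfl⟩ := hg
    refine ⟨(h1 y hy i hi N).eq, ?_⟩
    rw [← map_star]
    exact (h1 y hy i hi _).eq
  exact (commute_of_le_centralizer h2 hx).symm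

/-- Every finite subfamily generates a copy of a matrix algebra. -/
lemma exists_hom (hφ : CommFam φ) (F : Finset J) :
    ∃ Φ : Matrix (Fin (∏ j ∈ F, n j)) (Fin (∏ j ∈ F, n j)) ℂ →⋆ₐ[ℂ] T,
      Φ.range = alg φ (F : Set J) := by
  classical
  induction F using Finset.induction with
  | empty =>
    rw [Finset.prod_empty]
    refine ⟨ofUnits (fun _ _ => 1) ?_ ?_ ?_, ?_⟩
    · intro p q r s
      rw [if_pos (Subsingleton.elim _ _), mul_one]
    · intro p q; simp
    · simp
    · apply le_antisymm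
      · rw [range_le_iff]
        intro p q
        rw [mu_ofUnits]
        exact one_mem _
      · rw [alg_le_iff]
        intro j hj
        simp at hj
  | insert j F hj ih =>
    obtain ⟨Φ, hΦ⟩ := ih
    have hc : ∀ a b, Commute (φ j a) (Φ b) := by
      intro a b
      have h1 : φ j a ∈ alg φ {j} :=
        (range_le_alg φ (Set.mem_singleton j)) ((mem_range_iff (φ j) _).2 ⟨a, rfl⟩)
      have h2 : Φ b ∈ alg φ (F : Set J) := by
        rw [← hΦ]; exact (mem_range_iff Φ _).2 ⟨b, rfl⟩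
      have h3 : Disjoint ({j} : Set J) (F : Set J) := by simpa using hj
      exact alg_commute hφ h3 h1 h2
    rw [Finset.prod_insert hj]
    obtain ⟨Φ', hΦ'⟩ := exists_pairFin (φ j) Φ hc
    refine ⟨Φ', ?_⟩
    have hj2 : (φ j).range = alg φ {j} := by
      apply le_antisymm
      · exact range_le_alg φ (Set.mem_singleton j)
      · rw [alg_le_iff]
        rintro i hi
        rw [Set.mem_singleton_iff] at hi
        subst hi
        exact le_rfl
    rw [hΦ', hΦ, hj2, ← alg_union, Finset.coe_insert]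
    rfl

end family

end Pool.Agent.Helper46_UHF
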