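import Mathlib

/-! Slice maps and conditional expectations attached to a unital copy of a matrix algebra. -/

set_option autoImplicit false

open Matrix

namespace Pool.Agent.Helper46_UHF

section units

variable {X : Type*} [Fintype X] [DecidableEq X] {T : Type*} [CStarAlgebra T]

/-- A star homomorphism from a system of matrix units. -/
noncomputable def ofUnits (u : X → X → T)
    (hmul : ∀ p q r s, u p q * u r s = if q = r then u p s else 0)
    (hstar : ∀ p q, star (u p q) = u q p) (hone : ∑ p, u p p = 1) :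
    Matrix X X ℂ →⋆ₐ[ℂ] T where
  toFun M := ∑ p, ∑ q, M p q • u p q
  map_one' := by
    rw [← hone]
    apply Finset.sum_congr rfl
    intro p _
    rw [Finset.sum_eq_single p]
    · simp
    · intro q _ hq; simp [Matrix.one_apply_ne (Ne.symm hq)]
    · simp
  map_mul' M N := by
    have h1 : (∑ p, ∑ q, M p q • u p q) * (∑ p, ∑ q, N p q • u p q) =
        ∑ p, ∑ r, ∑ q, (M p r * N r q) • u p q := by
      rw [Finset.sum_mul]
      apply Finset.sum_congr rfl; intro p _
      rw [Finset.sum_mul]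
      apply Finset.sum_congr rfl; intro r _
      rw [Finset.mul_sum, Finset.sum_eq_single r]
      · rw [Finset.mul_sum]
        apply Finset.sum_congr rfl; intro q _
        rw [smul_mul_smul_comm, hmul, if_pos rfl]
      · intro r' _ hr'
        rw [Finset.mul_sum]
        apply Finset.sum_eq_zero; intro q _
        rw [smul_mul_smul_comm, hmul, if_neg (Ne.symm hr'), smul_zero]
      · simp
    rw [h1]
    apply Finset.sum_congr rfl; intro p _
    rw [Finset.sum_comm]
    apply Finset.sum_congr rfl; intro q _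
    rw [Matrix.mul_apply, Finset.sum_smul]
  map_zero' := by simp
  map_add' M N := by simp [add_smul, Finset.sum_add_distrib]
  commutes' c := by
    rw [Algebra.algebraMap_eq_smul_one, Algebra.algebraMap_eq_smul_one, ← hone, Finset.smul_sum]
    apply Finset.sum_congr rfl
    intro p _
    rw [Finset.sum_eq_single p]
    · simp
    · intro q _ hq; simp [Matrix.one_apply_ne (Ne.symm hq)]
    · simp
  map_star' M := by
    simp only [star_sum, star_smul, hstar, Matrix.star_apply]
    rw [Finset.sum_comm]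

lemma ofUnits_apply (u : X → X → T)
    (hmul : ∀ p q r s, u p q * u r s = if q = r then u p s else 0)
    (hstar : ∀ p q, star (u p q) = u q p) (hone : ∑ p, u p p = 1) (M : Matrix X X ℂ) :
    ofUnits u hmul hstar hone M = ∑ p, ∑ q, M p q • u p q := rfl

end units

section slices

variable {X : Type*} [Fintype X] [DecidableEq X] {T : Type*} [CStarAlgebra T]
  (Ψ : Matrix X X ℂ →⋆ₐ[ℂ] T)

/-- the matrix units of the copy `Ψ` -/
noncomputable def mu (p q : X) : T := Ψ (Matrix.single p q 1)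

lemma mu_mul (p q r s : X) : mu Ψ p q * mu Ψ r s = if q = r then mu Ψ p s else 0 := by
  unfold mu
  rw [← map_mul]
  split_ifs with h
  · subst h; rw [Matrix.single_mul_single_same]; simp
  · rw [Matrix.single_mul_single_of_ne (1 : ℂ) p q r h (1 : ℂ)]
    simp

lemma mu_mul_same (p q s : X) : mu Ψ p q * mu Ψ q s = mu Ψ p s := by
  rw [mu_mul, if_pos rfl]

lemma star_mu (p q : X) : star (mu Ψ p q) = mu Ψ q p := by
  unfold mu
  rw [← map_star, Matrix.star_eq_conjTranspose, Matrix.conjTranspose_single]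
  simp

lemma sum_mu : ∑ p, mu Ψ p p = 1 := by
  unfold mu
  rw [← map_sum, Matrix.sum_single_one, map_one]

lemma map_eq_sum (M : Matrix X X ℂ) : Ψ M = ∑ p, ∑ q, M p q • mu Ψ p q := by
  conv_lhs => rw [Matrix.matrix_eq_sum_single M]
  simp only [map_sum]
  apply Finset.sum_congr rfl; intro p _
  apply Finset.sum_congr rfl; intro q _
  unfold mu
  rw [← map_smul, Matrix.smul_single, smul_eq_mul, mul_one]

/-- the slice map `S p q z = ∑ m, e_{mp} z e_{qm}` -/
noncomputable def S (p q : X) : T →ₗ[ℂ] T where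
  toFun z := ∑ m, mu Ψ m p * z * mu Ψ q m
  map_add' y z := by simp [mul_add, add_mul, Finset.sum_add_distrib]
  map_smul' c z := by simp [Finset.smul_sum]

lemma S_apply (p q : X) (z : T) : S Ψ p q z = ∑ m, mu Ψ m p * z * mu Ψ q m := rfl

lemma mu_mul_S (a b p q : X) (z : T) : mu Ψ a b * S Ψ p q z = mu Ψ a p * z * mu Ψ q b := by
  rw [S_apply, Finset.mul_sum, Finset.sum_eq_single b]
  · rw [← mul_assoc, ← mul_assoc, mu_mul_same]
  · intro m _ hm
    rw [← mul_assoc, ← mul_assoc, mu_mul, if_neg (Ne.symm hm), zero_mul, zero_mul]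
  · simp

lemma S_mul_mu (a b p q : X) (z : T) : S Ψ p q z * mu Ψ a b = mu Ψ a p * z * mu Ψ q b := by
  rw [S_apply, Finset.sum_mul, Finset.sum_eq_single a]
  · rw [mul_assoc, mu_mul_same]
  · intro m _ hm
    rw [mul_assoc, mu_mul, if_neg hm, mul_zero]
  · simp

lemma S_commute_mu (a b p q : X) (z : T) : Commute (S Ψ p q z) (mu Ψ a b) := by
  rw [commute_iff_eq, S_mul_mu, mu_mul_S]

lemma commute_of_commute_mu {a : T} (h : ∀ p q, Commute a (mu Ψ p q)) (M : Matrix X X ℂ) :
    Commute a (Ψ M) := by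
  rw [map_eq_sum]
  apply Commute.sum_right; intro p _
  apply Commute.sum_right; intro q _
  exact (h p q).smul_right _

lemma S_commute (p q : X) (z : T) (M : Matrix X X ℂ) : Commute (S Ψ p q z) (Ψ M) :=
  commute_of_commute_mu Ψ (fun a b => S_commute_mu Ψ a b p q z) M

lemma sum_S (z : T) : z = ∑ p, ∑ q, S Ψ p q z * mu Ψ p q := by
  have h : ∀ p q, S Ψ p q z * mu Ψ p q = mu Ψ p p * z * mu Ψ q q := by
    intro p q; rw [S_mul_mu]
  simp only [h]
  have h1 : ∀ p, ∑ q, mu Ψ p p * z * mu Ψ q q = mu Ψ p p * z := by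
    intro p; rw [← Finset.mul_sum, sum_mu, mul_one]
  simp only [h1]
  rw [← Finset.sum_mul, sum_mu, one_mul]

lemma S_mul (p q : X) (y z : T) : S Ψ p q (y * z) = ∑ m, S Ψ p m y * S Ψ m q z := by
  have h : ∀ m, S Ψ p m y * S Ψ m q z = ∑ a, mu Ψ a p * y * mu Ψ m m * z * mu Ψ q a := by
    intro m
    rw [S_apply Ψ p m y, Finset.sum_mul]
    apply Finset.sum_congr rfl; intro a _
    rw [mul_assoc, mu_mul_S, ← mul_assoc, ← mul_assoc]
  simp only [h]
  rw [Finset.sum_comm, S_apply]
  apply Finset.sum_congr rfl; intro a _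
  rw [← Finset.sum_mul, ← Finset.sum_mul, ← Finset.mul_sum, sum_mu, mul_one]
  simp only [mul_assoc]

lemma star_S (p q : X) (z : T) : star (S Ψ p q z) = S Ψ q p (star z) := by
  rw [S_apply, S_apply, star_sum]
  apply Finset.sum_congr rfl; intro m _
  rw [star_mul, star_mul, star_mu, star_mu, mul_assoc]

lemma S_mul_left {a : T} (ha : ∀ p q, Commute a (mu Ψ p q)) (p q : X) (z : T) :
    S Ψ p q (a * z) = a * S Ψ p q z := by
  rw [S_apply, S_apply, Finset.mul_sum]
  apply Finset.sum_congr rfl; intro m _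
  rw [← mul_assoc, ← (ha m p).eq]; simp only [mul_assoc]

lemma S_mul_right {a : T} (ha : ∀ p q, Commute a (mu Ψ p q)) (p q : X) (z : T) :
    S Ψ p q (z * a) = S Ψ p q z * a := by
  rw [S_apply, S_apply, Finset.sum_mul]
  apply Finset.sum_congr rfl; intro m _
  rw [mul_assoc, mul_assoc, mul_assoc, mul_assoc, (ha q m).eq]

lemma S_map (p q : X) (M : Matrix X X ℂ) : S Ψ p q (Ψ M) = M p q • (1 : T) := by
  rw [S_apply]
  have h : ∀ m, mu Ψ m p * Ψ M * mu Ψ q m = M p q • mu Ψ m m := by
    intro m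
    unfold mu
    rw [← map_mul, ← map_mul, Matrix.single_mul_mul_single, ← map_smul, Matrix.smul_single]
    simp
  simp only [h]
  rw [← Finset.smul_sum, sum_mu]

lemma S_one (p q : X) : S Ψ p q 1 = if p = q then 1 else 0 := by
  have := S_map Ψ p q 1
  rw [map_one] at this
  rw [this, Matrix.one_apply]
  split_ifs <;> simp

lemma S_of_commute {a : T} (ha : ∀ p q, Commute a (mu Ψ p q)) (p q : X) :
    S Ψ p q a = if p = q then a else 0 := by
  have := S_mul_left Ψ ha p q 1
  rw [mul_one, S_one] at this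
  rw [this]; split_ifs <;> simp

lemma norm_S_le (p q : X) (z : T) : ‖S Ψ p q z‖ ≤ ‖z‖ := by
  let _ : PartialOrder T := CStarAlgebra.spectralOrder T
  have _ : StarOrderedRing T := CStarAlgebra.spectralOrderedRing T
  have hproj : mu Ψ p p ≤ 1 := by
    rw [← sub_nonneg]
    have : 1 - mu Ψ p p = star (1 - mu Ψ p p) * (1 - mu Ψ p p) := by
      rw [star_sub, star_one, star_mu, mul_sub, sub_mul, sub_mul, mu_mul_same]
      simp
    rw [this]
    exact star_mul_self_nonneg _
  have hz : star z * mu Ψ p p * z ≤ algebraMap ℝ T (‖z‖ ^ 2) := by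
    calc star z * mu Ψ p p * z ≤ star z * 1 * z := star_left_conjugate_le_conjugate hproj z
      _ = star z * z := by rw [mul_one]
      _ ≤ algebraMap ℝ T (‖z‖ ^ 2) := CStarAlgebra.star_mul_le_algebraMap_norm_sq
  have key : star (S Ψ p q z) * S Ψ p q z ≤ algebraMap ℝ T (‖z‖ ^ 2) := by
    have e : star (S Ψ p q z) * S Ψ p q z =
        ∑ m, star (mu Ψ q m) * (star z * mu Ψ p p * z) * mu Ψ q m := by
      rw [S_apply Ψ p q z, Finset.mul_sum]
      apply Finset.sum_congr rfl; intro m _
      rw [← S_apply Ψ p q z, ← mul_assoc, ← mul_assoc, star_S, S_mul_mu, star_mu]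
      simp only [mul_assoc]
    rw [e]
    calc ∑ m, star (mu Ψ q m) * (star z * mu Ψ p p * z) * mu Ψ q m
        ≤ ∑ m, star (mu Ψ q m) * (algebraMap ℝ T (‖z‖ ^ 2)) * mu Ψ q m :=
          Finset.sum_le_sum (fun m _ => star_left_conjugate_le_conjugate hz _)
      _ = algebraMap ℝ T (‖z‖ ^ 2) := by
          have : ∀ m, star (mu Ψ q m) * (algebraMap ℝ T (‖z‖ ^ 2)) * mu Ψ q m =
              algebraMap ℝ T (‖z‖ ^ 2) * mu Ψ m m := by
            intro m
            rw [← Algebra.commutes, mul_assoc, star_mu, mu_mul_same]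
          simp only [this]
          rw [← Finset.mul_sum, sum_mu, mul_one]
  have h2 : ‖star (S Ψ p q z) * S Ψ p q z‖ ≤ ‖z‖ ^ 2 :=
    (CStarAlgebra.norm_le_iff_le_algebraMap _ (by positivity) (star_mul_self_nonneg _)).2 key
  rw [CStarRing.norm_star_mul_self, ← sq] at h2
  exact le_of_sq_le_sq h2 (norm_nonneg _)

/-- the conditional expectation onto the commutant of the copy `Ψ` -/
noncomputable def E : T →ₗ[ℂ] T := ((Fintype.card X : ℂ)⁻¹) • ∑ q, S Ψ q q

lemma E_apply (z : T) : E Ψ z = ((Fintype.card X : ℂ)⁻¹) • ∑ q, S Ψ q q z := by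
  simp [E]

lemma E_commute (z : T) (M : Matrix X X ℂ) : Commute (E Ψ z) (Ψ M) := by
  rw [E_apply]
  apply Commute.smul_left
  exact Commute.sum_left _ _ _ (fun q _ => S_commute Ψ q q z M)

lemma E_mul_left {a : T} (ha : ∀ p q, Commute a (mu Ψ p q)) (z : T) : E Ψ (a * z) = a * E Ψ z := by
  rw [E_apply, E_apply]
  simp only [S_mul_left Ψ ha]
  rw [← Finset.mul_sum, mul_smul_comm]

lemma E_mul_right {a : T} (ha : ∀ p q, Commute a (mu Ψ p q)) (z : T) :
    E Ψ (z * a) = E Ψ z * a := by
  rw [E_apply, E_apply]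
  simp only [S_mul_right Ψ ha]
  rw [← Finset.sum_mul, smul_mul_assoc]

lemma E_one [Nonempty X] : E Ψ 1 = 1 := by
  rw [E_apply]
  simp only [S_one, if_true, Finset.sum_const, Finset.card_univ]
  rw [← Nat.cast_smul_eq_nsmul ℂ, smul_smul, inv_mul_cancel₀ (by simp), one_smul]

lemma E_of_commute [Nonempty X] {a : T} (ha : ∀ p q, Commute a (mu Ψ p q)) : E Ψ a = a := by
  have := E_mul_left Ψ ha 1
  rwa [mul_one, E_one, mul_one] at this

lemma norm_E_le [Nonempty X] (z : T) : ‖E Ψ z‖ ≤ ‖z‖ := by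
  rw [E_apply, norm_smul, norm_inv, Complex.norm_natCast]
  have hc : (0 : ℝ) < Fintype.card X := by exact_mod_cast Fintype.card_pos
  rw [inv_mul_le_iff₀ hc]
  calc ‖∑ q, S Ψ q q z‖ ≤ ∑ q, ‖S Ψ q q z‖ := norm_sum_le _ _
    _ ≤ ∑ _q : X, ‖z‖ := Finset.sum_le_sum (fun q _ => norm_S_le Ψ q q z)
    _ = Fintype.card X * ‖z‖ := by simp

lemma star_E (z : T) : star (E Ψ z) = E Ψ (star z) := by
  rw [E_apply, E_apply, star_smul, star_sum]
  simp [star_S]

lemma E_tracial (M : Matrix X X ℂ) (z : T) : E Ψ (Ψ M * z) = E Ψ (z * Ψ M) := by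
  have key : ∀ a b, E Ψ (mu Ψ a b * z) = E Ψ (z * mu Ψ a b) := by
    intro a b
    rw [E_apply, E_apply]
    congr 1
    have h1 : ∀ q, S Ψ q q (mu Ψ a b * z) = ∑ m, if q = a then mu Ψ m b * z * mu Ψ q m else 0 := by
      intro q
      rw [S_apply]
      apply Finset.sum_congr rfl; intro m _
      rw [← mul_assoc, mu_mul]
      split_ifs <;> simp
    have h2 : ∀ q, S Ψ q q (z * mu Ψ a b) = ∑ m, if b = q then mu Ψ m q * z * mu Ψ a m else 0 := by
      intro q
      rw [S_apply]
      apply Finset.sum_congr rfl; intro m _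
      rw [mul_assoc, mul_assoc z, mu_mul]
      split_ifs <;> simp [mul_assoc]
    simp only [h1, h2]
    rw [Finset.sum_comm, Finset.sum_comm (s := Finset.univ) (t := Finset.univ)
      (f := fun q m => if b = q then mu Ψ m q * z * mu Ψ a m else 0)]
    simp
  rw [map_eq_sum, Finset.sum_mul, Finset.mul_sum, map_sum, map_sum]
  apply Finset.sum_congr rfl; intro p _
  rw [Finset.sum_mul, Finset.mul_sum, map_sum, map_sum]
  apply Finset.sum_congr rfl; intro q _
  rw [smul_mul_assoc, mul_smul_comm, map_smul, map_smul, key]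

lemma E_map (M : Matrix X X ℂ) :
    E Ψ (Ψ M) = ((Fintype.card X : ℂ)⁻¹ * M.trace) • (1 : T) := by
  rw [E_apply]
  simp only [S_map]
  rw [← Finset.sum_smul, smul_smul]
  rfl

end slices

end Pool.Agent.Helper46_UHF
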