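import Pool.Agent.Helper46_UHF.Support

/-! The universal property: a commuting family of copies of matrix algebras in a nonzero
C*-algebra extends to an embedding of the infinite tensor product. -/

set_option autoImplicit false

open Matrix
open scoped Matrix.Norms.L2Operator

namespace Pool.Agent.Helper46_UHF

variable {J : Type*} {n : J → ℕ} {B A : Type*} [CStarAlgebra B] [CStarAlgebra A]

lemma norm_eq_of_mem [Nontrivial A] [Nontrivial B]
    {χ : ∀ j, Matrix (Fin (n j)) (Fin (n j)) ℂ →⋆ₐ[ℂ] B × A} (hχ : CommFam χ)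
    {z : B × A} (hz : z ∈ alg χ Set.univ) : ‖z.1‖ = ‖z.2‖ := by
  obtain ⟨F, hF⟩ := exists_finset z hz
  obtain ⟨M, rfl⟩ := exists_of_mem hχ F hF
  have h1 := NonUnitalStarAlgHom.norm_map ((StarAlgHom.fst ℂ B A).comp (hom hχ F))
    (injective_of_nontrivial _) M
  have h2 := NonUnitalStarAlgHom.norm_map ((StarAlgHom.snd ℂ B A).comp (hom hχ F))
    (injective_of_nontrivial _) M
  exact h1.trans h2.symm

theorem exists_embedding [Nontrivial A] [Nontrivial B]
    {φ : ∀ j, Matrix (Fin (n j)) (Fin (n j)) ℂ →⋆ₐ[ℂ] B} (hφ : CommFam φ)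
    (hd : Dense (alg φ Set.univ : Set B))
    {ψ : ∀ j, Matrix (Fin (n j)) (Fin (n j)) ℂ →⋆ₐ[ℂ] A} (hψ : CommFam ψ) :
    ∃ f : B →⋆ₐ[ℂ] A, Function.Injective f ∧ ∀ j M, f (φ j M) = ψ j M := by
  set χ : ∀ j, Matrix (Fin (n j)) (Fin (n j)) ℂ →⋆ₐ[ℂ] B × A := fun j => (φ j).prod (ψ j) with hχd
  have hχ : CommFam χ := by
    intro i j hij a b
    exact Prod.ext (hφ i j hij a b) (hψ i j hij a b)
  set D := (alg χ Set.univ).topologicalClosure with hD
  have hnorm : ∀ z ∈ D, ‖z.1‖ = ‖z.2‖ := by
    intro z hz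
    have hcl : IsClosed {z : B × A | ‖z.1‖ = ‖z.2‖} :=
      isClosed_eq (continuous_norm.comp continuous_fst) (continuous_norm.comp continuous_snd)
    have hz' : z ∈ closure (alg χ Set.univ : Set (B × A)) := hz
    exact closure_minimal (fun z hz => norm_eq_of_mem hχ hz) hcl hz'
  have hDc : IsClosed (D : Set (B × A)) := StarSubalgebra.isClosed_topologicalClosure _
  have hsub : ∀ z ∈ alg χ Set.univ, z ∈ D := fun z hz =>
    StarSubalgebra.le_topologicalClosure _ hz
  have huniq : ∀ z ∈ D, ∀ z' ∈ D, z.1 = z'.1 → z.2 = z'.2 := by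
    intro z hz z' hz' h
    have := hnorm (z - z') (sub_mem hz hz')
    rw [Prod.fst_sub, Prod.snd_sub, h, sub_self, norm_zero] at this
    exact sub_eq_zero.1 (norm_eq_zero.1 this.symm)
  have hsurj : ∀ b : B, ∃ z ∈ D, z.1 = b := by
    let g : D → B := fun z => z.1.1
    have hg : Isometry g := by
      apply Isometry.of_dist_eq
      intro x y
      rw [dist_eq_norm]
      change ‖x.1.1 - y.1.1‖ = dist x.1 y.1
      rw [dist_eq_norm, Prod.norm_def, Prod.fst_sub, Prod.snd_sub]
      have := hnorm (x.1 - y.1) (sub_mem x.2 y.2)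
      rw [Prod.fst_sub, Prod.snd_sub] at this
      rw [← this, max_self]
    have : CompleteSpace D := hDc.completeSpace_coe
    have hcl : IsClosed (Set.range g) := hg.isClosedEmbedding.isClosed_range
    have hle : (alg φ Set.univ : Set B) ⊆ Set.range g := by
      have : alg φ Set.univ ≤ (alg χ Set.univ).map (StarAlgHom.fst ℂ B A) := by
        rw [alg_le_iff]
        rintro j hj _ ⟨M, rfl⟩
        refine ⟨χ j M, range_le_alg χ hj ⟨M, rfl⟩, rfl⟩
      intro b hb
      obtain ⟨z, hz, rfl⟩ := this hb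
      exact ⟨⟨z, hsub z hz⟩, rfl⟩
    intro b
    have : b ∈ Set.range g := by
      have h1 : closure (alg φ Set.univ : Set B) ⊆ Set.range g := closure_minimal hle hcl
      exact h1 (hd b)
    obtain ⟨z, rfl⟩ := this
    exact ⟨z.1, z.2, rfl⟩
  choose g hgD hg1 using hsurj
  have key : ∀ z ∈ D, (g z.1).2 = z.2 := fun z hz => huniq _ (hgD _) _ hz (hg1 _)
  refine ⟨{ toFun := fun b => (g b).2, map_one' := ?_, map_mul' := ?_, map_zero' := ?_,
            map_add' := ?_, commutes' := ?_, map_star' := ?_ }, ?_, ?_⟩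
  · exact key 1 (one_mem D)
  · intro a b
    have := key (g a * g b) (mul_mem (hgD a) (hgD b))
    rw [Prod.fst_mul, hg1, hg1] at this
    exact this
  · exact key 0 (zero_mem D)
  · intro a b
    have := key (g a + g b) (add_mem (hgD a) (hgD b))
    rw [Prod.fst_add, hg1, hg1] at this
    exact this
  · intro c
    exact key (algebraMap ℂ (B × A) c) (D.algebraMap_mem c)
  · intro a
    have := key (star (g a)) (star_mem (hgD a))
    rw [Prod.fst_star, hg1] at this
    exact this
  · intro a b hab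
    have hab' : (g a).2 = (g b).2 := hab
    have := hnorm (g a - g b) (sub_mem (hgD a) (hgD b))
    rw [Prod.fst_sub, Prod.snd_sub, hab', sub_self, norm_zero, hg1, hg1] at this
    exact sub_eq_zero.1 (norm_eq_zero.1 this)
  · intro j M
    exact key (χ j M) (hsub _ (range_le_alg χ (Set.mem_univ j) ⟨M, rfl⟩))

end Pool.Agent.Helper46_UHF
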